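import Pool.Agent.Helper67.RG.EStmts

/-!
# Assembly of the special pairs
-/

namespace Pool.Agent.Helper67.RG

open Polynomial

theorem card_J : Fintype.card J = 78 := by decide

theorem exists_tower {ν : ℕ} (D : Pell ν) : Nonempty (Tower D) := by
  have hν := D.hν
  choose r hr using fun i : Fin 12 =>
    IsAlgClosed.exists_pow_nat_eq (tau - algebraMap ℂ Om (D.lam i)) (n := 2) (by norm_num)
  obtain ⟨w, hw⟩ := IsAlgClosed.exists_pow_nat_eq
    (aeval (tau ^ 3) D.p * ∏ i ∈ I2, r i + aeval (tau ^ 3) D.q * ∏ i ∈ I1, r i) (n := ν) (by omega)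
  exact ⟨⟨r, hr, w, hw⟩⟩

namespace Tower

variable {ν : ℕ} {D : Pell ν} (T : Tower D)

theorem x_grB (i : Fin 12) : T.x i ∈ T.grB 1 := ⟨T.r i, rfl⟩

theorem grB_coeff {n : ℕ} {z : T.B} (hz : z ∈ T.grB n) :
    ∃ c : Om, (z : Om[X]) = monomial n c ∧ c ∈ W n ∧ c ∈ T.E n := by
  obtain ⟨c, hc⟩ := hz
  refine ⟨c, hc, ?_, ?_⟩
  · have := z.2.1
    rw [hc] at this
    exact this
  · have := z.2.2 n
    rw [hc, coeff_monomial, if_pos rfl] at this
    exact this

theorem x_ne (hx : LinearIndependent ℂ T.x) (i : Fin 12) : T.x i ≠ 0 := hx.ne_zero i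

theorem quad_eq (c : J → ℂ) : MvPolynomial.aeval T.x (quad c) =
    ∑ p : J, c p • (T.x p.1.1 * T.x p.1.2) := by
  rw [quad, map_sum]
  refine Finset.sum_congr rfl fun p _ => ?_
  rw [map_mul, map_mul, MvPolynomial.aeval_C, MvPolynomial.aeval_X, MvPolynomial.aeval_X,
    Algebra.smul_def]

theorem lam_ne (D : Pell ν) : D.lam 1 - D.lam 0 ≠ 0 := by
  rw [sub_ne_zero]
  exact fun h => absurd (D.inj h) (by decide)

theorem coe_x_sq (i : Fin 12) : ((T.x i ^ 2 : T.B) : Om[X]) =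
    monomial 2 tau - (D.lam i) • monomial 2 (1 : Om) := by
  rw [Subalgebra.coe_pow]
  show T.xx i ^ 2 = _
  rw [xx, monomial_pow, one_mul, T.hr i, map_sub, smul_monomial]
  congr 2
  rw [Algebra.smul_def, mul_one]

theorem diag (i : Fin 12) : ∃ α β : ℂ, T.x i ^ 2 = α • T.x 0 ^ 2 + β • T.x 1 ^ 2 := by
  have h := lam_ne D
  refine ⟨(D.lam 1 - D.lam i) / (D.lam 1 - D.lam 0), (D.lam i - D.lam 0) / (D.lam 1 - D.lam 0), ?_⟩
  apply Subtype.ext
  rw [Subalgebra.coe_add, Subalgebra.coe_smul, Subalgebra.coe_smul, coe_x_sq, coe_x_sq, coe_x_sq,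
    smul_sub, smul_sub, smul_smul, smul_smul]
  have e1 : (D.lam 1 - D.lam i) / (D.lam 1 - D.lam 0) + (D.lam i - D.lam 0) / (D.lam 1 - D.lam 0)
      = 1 := by field_simp; ring
  have e2 : (D.lam 1 - D.lam i) / (D.lam 1 - D.lam 0) * D.lam 0 +
      (D.lam i - D.lam 0) / (D.lam 1 - D.lam 0) * D.lam 1 = D.lam i := by
    field_simp; ring
  generalize (D.lam 1 - D.lam i) / (D.lam 1 - D.lam 0) = α at *
  generalize (D.lam i - D.lam 0) / (D.lam 1 - D.lam 0) = β at *
  rw [← e2]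
  obtain rfl : α = 1 - β := by linear_combination e1
  module

/-- The subalgebra generated by the `x i`. -/
noncomputable def S : Subalgebra ℂ T.B := Algebra.adjoin ℂ (Set.range T.x)

theorem A0_le : A0 ≤ T.S.map T.B.val := by
  have h := lam_ne D
  have h0 : T.x 0 ^ 2 ∈ T.S := T.S.pow_mem (Algebra.subset_adjoin ⟨0, rfl⟩) 2
  have h1 : T.x 1 ^ 2 ∈ T.S := T.S.pow_mem (Algebra.subset_adjoin ⟨1, rfl⟩) 2
  rw [A0, Algebra.adjoin_le_iff]
  rintro z (rfl | rfl)
  · refine ⟨(1 / (D.lam 1 - D.lam 0)) • (T.x 0 ^ 2 - T.x 1 ^ 2), T.S.smul_mem (T.S.sub_mem h0 h1) _,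
      ?_⟩
    show (((1 / (D.lam 1 - D.lam 0)) • (T.x 0 ^ 2 - T.x 1 ^ 2) : T.B) : Om[X]) = X ^ 2
    rw [Subalgebra.coe_smul, Subalgebra.coe_sub, coe_x_sq, coe_x_sq]
    have : (monomial 2 tau - D.lam 0 • monomial 2 (1 : Om) -
      (monomial 2 tau - D.lam 1 • monomial 2 (1 : Om)) : Om[X]) =
      (D.lam 1 - D.lam 0) • monomial 2 (1 : Om) := by rw [sub_smul]; abel
    rw [this, smul_smul, one_div, inv_mul_cancel₀ h, one_smul, monomial_one_right_eq_X_pow]
  · refine ⟨(1 / (D.lam 1 - D.lam 0)) • (D.lam 1 • T.x 0 ^ 2 - D.lam 0 • T.x 1 ^ 2),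
      T.S.smul_mem (T.S.sub_mem (T.S.smul_mem h0 _) (T.S.smul_mem h1 _)) _, ?_⟩
    show (((1 / (D.lam 1 - D.lam 0)) • (D.lam 1 • T.x 0 ^ 2 - D.lam 0 • T.x 1 ^ 2) : T.B) : Om[X])
      = C tau * X ^ 2
    rw [Subalgebra.coe_smul, Subalgebra.coe_sub, Subalgebra.coe_smul, Subalgebra.coe_smul,
      coe_x_sq, coe_x_sq]
    have : (D.lam 1 • (monomial 2 tau - D.lam 0 • monomial 2 (1 : Om)) -
      D.lam 0 • (monomial 2 tau - D.lam 1 • monomial 2 (1 : Om)) : Om[X]) =
      (D.lam 1 - D.lam 0) • monomial 2 tau := by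
      rw [smul_sub, smul_sub, smul_smul, smul_smul, sub_smul, mul_comm]; abel
    rw [this, smul_smul, one_div, inv_mul_cancel₀ h, one_smul, C_mul_X_pow_eq_monomial]

theorem integral (c : T.B) : IsIntegral T.S c := by
  have hinj : Function.Injective (T.B.val : T.B →ₐ[ℂ] Om[X]) := Subtype.val_injective
  let e := T.S.equivMapOfInjective T.B.val hinj
  let f : A0 →ₐ[ℂ] T.S := (e.symm : (T.S.map T.B.val) →ₐ[ℂ] T.S).comp
    (Subalgebra.inclusion T.A0_le)
  have hf : ∀ a : A0, T.B.val (algebraMap T.S T.B (f a)) = algebraMap A0 Om[X] a := by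
    intro a
    have h1 : ((e (f a) : T.S.map T.B.val) : Om[X]) = T.B.val (f a : T.B) := rfl
    have h2 : e (f a) = Subalgebra.inclusion T.A0_le a := e.apply_symm_apply _
    rw [h2] at h1
    exact h1.symm
  obtain ⟨p, hp, hpe⟩ := c.2.1
  refine ⟨p.map (f : A0 →+* T.S), hp.map _, ?_⟩
  rw [eval₂_map]
  apply hinj
  show (T.B.val : T.B →+* Om[X]) _ = (T.B.val : T.B →+* Om[X]) 0
  rw [hom_eval₂, map_zero]
  have : ((T.B.val : T.B →+* Om[X]).comp ((algebraMap T.S T.B).comp (f : A0 →+* T.S))) =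
      algebraMap A0 Om[X] := RingHom.ext hf
  rw [← hpe, ← this]
  rfl

end Tower

theorem st_PAIR (hLOW : ST_LOW) (hQREL : ST_QREL) (hKER : ST_KER) (hGRAD : ST_GRAD)
    (hNORM : ST_NORM) (hFT : ST_FT) (hFD : ST_FD) (hGEN : ST_GEN) (hGOOD : ST_GOOD)
    (hHILB : ST_HILB) (hDNU : ST_DNU) (hCORE : ST_CORE) (hIRR : ST_IRR) (hFRAC : ST_FRAC) :
    ST_PAIR := by
  intro ν hν ⟨D⟩
  obtain ⟨T⟩ := exists_tower D
  obtain ⟨hG⟩ := hGRAD ν D T
  have hN := hNORM ν D T
  have hT := hFT ν D T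
  have hF := hFD ν D T
  obtain ⟨hxi, hqi, hqr⟩ := hQREL ν D T
  obtain ⟨hL0, hL1, hL2⟩ := hLOW ν D T
  obtain ⟨M, hM⟩ := hGEN ν D T
  obtain ⟨d, c, hH, hH'⟩ := hHILB T.B T.grB hF (T.x 0) (T.x 1) (T.x_grB 0) (T.x_grB 1)
    (T.x_ne hxi 0) (fun a b h => by
      refine hGOOD ν D T a (T.x 0) 1 (T.x_ne hxi 0) ?_ ?_
      · rw [pow_one]; exact Dvd.intro_left _ rfl
      · rw [pow_one, mul_comm, h]; exact Dvd.intro _ rfl) M hM
  have hd : ν ≤ d := hDNU ν D T M d c hH
  -- degree one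
  have hspan1 : ∀ z ∈ T.grB 1, z ∈ Submodule.span ℂ (Set.range T.x) := by
    intro z hz
    obtain ⟨e, he, heW, heE⟩ := T.grB_coeff hz
    obtain ⟨f, hf⟩ := (Submodule.mem_span_range_iff_exists_fun ℂ).1 (hL1 e heW heE)
    refine (Submodule.mem_span_range_iff_exists_fun ℂ).2 ⟨f, ?_⟩
    apply Subtype.ext
    rw [he, ← hf, map_sum, AddSubmonoidClass.coe_finsetSum]
    refine Finset.sum_congr rfl fun i _ => ?_
    rw [Subalgebra.coe_smul, ← smul_monomial]
    rfl
  have hgr1 : T.grB 1 = Submodule.span ℂ (Set.range T.x) := by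
    refine le_antisymm hspan1 ?_
    rw [Submodule.span_le]
    rintro _ ⟨i, rfl⟩
    exact T.x_grB i
  have hf1 : Module.finrank ℂ (T.grB 1) = 12 := by
    rw [hgr1, finrank_span_eq_card hxi]; rfl
  -- degree two
  have hspan2 : ∀ z ∈ T.grB 2,
      z ∈ Submodule.span ℂ (Set.range fun p : J => T.x p.1.1 * T.x p.1.2) := by
    intro z hz
    obtain ⟨e, he, heW, heE⟩ := T.grB_coeff hz
    obtain ⟨f, hf⟩ := (Submodule.mem_span_range_iff_exists_fun ℂ).1 (hL2 e heW heE)
    refine (Submodule.mem_span_range_iff_exists_fun ℂ).2 ⟨f, ?_⟩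
    apply Subtype.ext
    rw [he, ← hf, map_sum, AddSubmonoidClass.coe_finsetSum]
    refine Finset.sum_congr rfl fun i _ => ?_
    rw [Subalgebra.coe_smul, ← smul_monomial]
    congr 1
    show T.xx i.1.1 * T.xx i.1.2 = _
    rw [Tower.xx, Tower.xx, monomial_mul_monomial]
  have hgr2 : T.grB 2 = Submodule.span ℂ (Set.range fun p : J => T.x p.1.1 * T.x p.1.2) := by
    refine le_antisymm hspan2 ?_
    rw [Submodule.span_le]
    rintro _ ⟨p, rfl⟩
    exact SetLike.mul_mem_graded (T.x_grB _) (T.x_grB _)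
  have hf2 : Module.finrank ℂ (T.grB 2) = 68 := by
    let Φ : (J → ℂ) →ₗ[ℂ] T.B := Fintype.linearCombination ℂ
      (fun p : J => T.x p.1.1 * T.x p.1.2)
    have hr : LinearMap.range Φ = T.grB 2 := by
      rw [hgr2]
      exact Fintype.range_linearCombination ℂ (fun p : J => T.x p.1.1 * T.x p.1.2)
    have hk : LinearMap.ker Φ = Submodule.span ℂ (Set.range (qq D)) := by
      ext e
      rw [LinearMap.mem_ker, ← hqr, T.quad_eq, Fintype.linearCombination_apply]
    have hrn := LinearMap.finrank_range_add_finrank_ker Φ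
    rw [hr, hk, finrank_span_eq_card hqi, Module.finrank_fintype_fun_eq_card, card_J,
      Fintype.card_fin] at hrn
    omega
  -- degree zero
  have h68 : (Module.finrank ℂ (T.grB (M + 2)) : ℤ) ≤ 68 + M * d := by
    have : ∀ k : ℕ, (Module.finrank ℂ (T.grB (k + 2)) : ℤ) ≤ 68 + k * d := by
      intro k
      induction k with
      | zero => simp [hf2]
      | succ k ih =>
        have := hH' (k + 2)
        have e : k + 1 + 2 = k + 2 + 1 := by ring
        rw [e]
        push_cast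
        have h' : (Module.finrank ℂ (T.grB (k + 2 + 1)) : ℤ) ≤
            Module.finrank ℂ (T.grB (k + 2)) + d := by exact_mod_cast this
        linarith
    exact this M
  have hc : c ≤ 68 - 2 * d := by
    have h1 := hH (M + 2) (by omega)
    push_cast at h1
    linarith
  have hd100 : (100 : ℤ) ≤ d := by exact_mod_cast hν.trans hd
  obtain ⟨g, hg⟩ : ∃ g : ℕ, (g : ℤ) = 1 - c := ⟨(1 - c).toNat, Int.toNat_of_nonneg (by linarith)⟩
  let X : Pair g d :=
    { R := T.B
      gr := T.grB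
      grd := hG
      ft := hT
      nor := hN
      zero := by
        intro z hz
        obtain ⟨e, he, heW, heE⟩ := T.grB_coeff hz
        obtain ⟨a, rfl⟩ := hL0 e heW heE
        refine ⟨a, ?_⟩
        apply Subtype.ext
        rw [he]
        rfl
      hilb := ⟨M, fun n hn => by rw [hH n hn]; linarith⟩ }
  refine ⟨g, d, X, hd, ?_, ?_, ⟨?_⟩⟩
  · have : (2 * d : ℤ) ≤ g + 67 := by rw [hg]; linarith
    exact_mod_cast this
  · show 12 ≤ Module.finrank ℂ (T.grB 1)
    rw [hf1]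
  exact
    { ν := ν
      hν := by omega
      x := T.x
      x_mem := T.x_grB
      x_ind := hxi
      x_span := hspan1
      span2 := hspan2
      q := qq D
      q_ind := hqi
      q_rel := hqr
      ker := hKER ν D T
      good := hGOOD ν D T
      diag := T.diag
      integral := T.integral
      roots := by
        intro N
        obtain ⟨Q, i0, j, hm, ha⟩ := hCORE ν D T N
        exact ⟨{ Q with
          i0 := i0
          irr := hIRR ν D T j (Q.a i0) ha
          frac := by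
            intro n c hc
            obtain ⟨e, p, s, h1, h2, h3, h4⟩ := hFRAC ν D T j (Q.a i0) ha n c hc
            exact ⟨e, p, s, h1, h2, by rw [hm]; exact h3, h4⟩ }⟩ }

end Pool.Agent.Helper67.RG
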