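import Pool.Agent.Helper67.RG.EStmts

/-!
# Modules W and WH
-/

namespace Pool.Agent.Helper67.RG

open Polynomial

/-- Integrality depends only on the image of the base ring. -/
theorem integral_of_range {R R' B : Type*} [CommRing R] [CommRing R'] [CommRing B]
    (f : R →+* B) (g : R' →+* B) (h : ∀ a, ∃ b, g b = f a) {z : B}
    (hz : f.IsIntegralElem z) : g.IsIntegralElem z := by
  obtain ⟨p, hp, hpe⟩ := hz
  have h1 : p.map f ∈ lifts g := by
    rw [lifts_iff_coeff_lifts]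
    intro n
    rw [coeff_map]
    obtain ⟨b, hb⟩ := h (p.coeff n)
    exact ⟨b, hb⟩
  obtain ⟨q, hq, -, hqm⟩ := lifts_and_natDegree_eq_and_monic h1 (hp.map f)
  refine ⟨q, hqm, ?_⟩
  rw [eval₂_eq_eval_map, hq, ← eval₂_eq_eval_map, hpe]

/-- Integrality is preserved by a ring homomorphism. -/
theorem integral_map {R B B' : Type*} [CommRing R] [CommRing B] [CommRing B']
    (f : R →+* B) (ψ : B →+* B') {z : B} (hz : f.IsIntegralElem z) :
    (ψ.comp f).IsIntegralElem (ψ z) := by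
  obtain ⟨p, hp, hpe⟩ := hz
  refine ⟨p, hp, ?_⟩
  rw [← hom_eval₂, hpe, map_zero]

/-- Integrality is reflected by an injective ring homomorphism. -/
theorem integral_reflect {R B B' : Type*} [CommRing R] [CommRing B] [CommRing B']
    (f : R →+* B) (ψ : B →+* B') (hψ : Function.Injective ψ) {z : B}
    (hz : (ψ.comp f).IsIntegralElem (ψ z)) : f.IsIntegralElem z := by
  obtain ⟨p, hp, hpe⟩ := hz
  refine ⟨p, hp, ?_⟩
  rw [← hom_eval₂] at hpe
  exact hψ (by rw [hpe, map_zero])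

theorem W_add {m : ℕ} {a b : Om} (ha : a ∈ W m) (hb : b ∈ W m) : a + b ∈ W m := by
  show IsIntegral A0 (monomial m (a + b))
  rw [map_add]
  exact IsIntegral.add ha hb

theorem W_mul {m n : ℕ} {a b : Om} (ha : a ∈ W m) (hb : b ∈ W n) : a * b ∈ W (m + n) := by
  show IsIntegral A0 (monomial (m + n) (a * b))
  rw [← monomial_mul_monomial]
  exact IsIntegral.mul ha hb

theorem W_smul {m : ℕ} (c : ℂ) {a : Om} (ha : a ∈ W m) : c • a ∈ W m := by
  show IsIntegral A0 (monomial m (c • a))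
  rw [← smul_monomial, Algebra.smul_def]
  have : algebraMap ℂ Om[X] c = algebraMap A0 Om[X] (algebraMap ℂ A0 c) := rfl
  rw [this]
  exact IsIntegral.mul isIntegral_algebraMap ha

theorem W_pow {m k : ℕ} {a : Om} (hk : 1 ≤ k) (ha : a ^ k ∈ W (m * k)) : a ∈ W m := by
  refine IsIntegral.of_pow (n := k) (by omega) ?_
  rw [monomial_pow]
  exact ha

theorem map_A0 (σ : Om →+* Om) (h : ∀ c : RatFunc ℂ, σ (algebraMap (RatFunc ℂ) Om c) =
    algebraMap (RatFunc ℂ) Om c) (a : A0) : Polynomial.map σ (a : Om[X]) = a := by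
  obtain ⟨a, ha⟩ := a
  show Polynomial.map σ a = a
  refine Algebra.adjoin_induction (p := fun a _ => Polynomial.map σ a = a) ?_ ?_ ?_ ?_ ha
  · rintro x (rfl | rfl)
    · simp
    · rw [Polynomial.map_mul, map_C, tau, h, Polynomial.map_pow, map_X]
  · intro c
    have : algebraMap ℂ Om[X] c = C (algebraMap ℂ Om c) := rfl
    rw [this, map_C, IsScalarTower.algebraMap_apply ℂ (RatFunc ℂ) Om, h]
  · intro x y _ _ hx hy
    rw [Polynomial.map_add, hx, hy]
  · intro x y _ _ hx hy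
    rw [Polynomial.map_mul, hx, hy]

theorem W_gal (σ : Om ≃ₐ[RatFunc ℂ] Om) {m : ℕ} {a : Om} (ha : a ∈ W m) : σ a ∈ W m := by
  have h1 : (algebraMap A0 Om[X]).IsIntegralElem (monomial m a) := ha
  have h2 := integral_map _ (mapRingHom (σ : Om →+* Om)) h1
  have h3 : (mapRingHom (σ : Om →+* Om)).comp (algebraMap A0 Om[X]) = algebraMap A0 Om[X] := by
    refine RingHom.ext fun x => ?_
    exact map_A0 (σ : Om →+* Om) (fun c => σ.commutes c) x
  rw [h3, coe_mapRingHom, map_monomial] at h2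
  exact h2

theorem A0_eval (κ : Om) (g : ℂ[X] →+* Om) (hg : ∀ c, g (C c) = algebraMap ℂ Om c)
    (h1 : ∃ b, g b = κ ^ 2) (h2 : ∃ b, g b = tau * κ ^ 2) (a : A0) :
    ∃ b, g b = (eval κ (a : Om[X])) := by
  obtain ⟨a, ha⟩ := a
  show ∃ b, g b = eval κ a
  refine Algebra.adjoin_induction (p := fun a _ => ∃ b, g b = eval κ a) ?_ ?_ ?_ ?_ ha
  · rintro x (rfl | rfl)
    · simpa using h1
    · simpa using h2
  · intro c
    refine ⟨C c, ?_⟩
    have : algebraMap ℂ Om[X] c = C (algebraMap ℂ Om c) := rfl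
    rw [this, eval_C, hg]
  · rintro x y _ _ ⟨b, hb⟩ ⟨b', hb'⟩
    exact ⟨b + b', by rw [map_add, eval_add, hb, hb']⟩
  · rintro x y _ _ ⟨b, hb⟩ ⟨b', hb'⟩
    exact ⟨b * b', by rw [map_mul, eval_mul, hb, hb']⟩

theorem tau_ne : tau ≠ 0 := by
  rw [tau, Ne, map_eq_zero_iff _ (algebraMap (RatFunc ℂ) Om).injective]
  exact RatFunc.X_ne_zero

theorem alg_C (c : ℂ) : algebraMap (RatFunc ℂ) Om (RatFunc.C c) = algebraMap ℂ Om c := by
  rw [IsScalarTower.algebraMap_apply ℂ (RatFunc ℂ) Om]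
  rfl

theorem aeval_tau_eq (P : ℂ[X]) :
    aeval tau P = algebraMap (RatFunc ℂ) Om (algebraMap ℂ[X] (RatFunc ℂ) P) := by
  rw [tau, aeval_algebraMap_apply]
  congr 1
  have : (aeval (RatFunc.X : RatFunc ℂ) : ℂ[X] →ₐ[ℂ] RatFunc ℂ) =
      IsScalarTower.toAlgHom ℂ ℂ[X] (RatFunc ℂ) := by
    apply Polynomial.algHom_ext
    rw [aeval_X]
    exact RatFunc.algebraMap_X.symm
  rw [this]
  rfl

open Classical in
theorem W_rat {m : ℕ} {c : RatFunc ℂ} (hc : algebraMap (RatFunc ℂ) Om c ∈ W m) :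
    ∃ P : ℂ[X], c = algebraMap ℂ[X] (RatFunc ℂ) P ∧ 2 * P.natDegree ≤ m := by
  have h0 : (algebraMap A0 Om[X]).IsIntegralElem (monomial m (algebraMap (RatFunc ℂ) Om c)) := hc
  -- first chart
  have h1 := integral_map _ (evalRingHom (1 : Om)) h0
  have h2 := integral_of_range _ ((algebraMap (RatFunc ℂ) Om).comp (algebraMap ℂ[X] (RatFunc ℂ)))
    (fun a => A0_eval 1 ((algebraMap (RatFunc ℂ) Om).comp (algebraMap ℂ[X] (RatFunc ℂ)))
      (fun c => by
        rw [RingHom.comp_apply, RatFunc.algebraMap_C, alg_C])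
      ⟨1, by simp⟩ ⟨X, by
        rw [RingHom.comp_apply, RatFunc.algebraMap_X, one_pow, mul_one, tau]⟩ a) h1
  rw [coe_evalRingHom, eval_monomial, one_pow, mul_one] at h2
  have h3 := integral_reflect _ _ (algebraMap (RatFunc ℂ) Om).injective h2
  obtain ⟨P, hP⟩ := IsIntegrallyClosed.isIntegral_iff.mp
    (show IsIntegral ℂ[X] c from h3)
  refine ⟨P, hP.symm, ?_⟩
  subst hP
  by_cases hP0 : P = 0
  · simp [hP0]
  -- second chart
  obtain ⟨κ, hκ⟩ := IsAlgClosed.exists_pow_nat_eq (tau⁻¹) (n := 2) (by norm_num)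
  have h4 := integral_map _ (evalRingHom κ) h0
  let g : ℂ[X] →+* RatFunc ℂ := (aeval (RatFunc.X⁻¹ : RatFunc ℂ) : ℂ[X] →ₐ[ℂ] RatFunc ℂ)
  have h5 := integral_of_range _ ((algebraMap (RatFunc ℂ) Om).comp g)
    (fun a => A0_eval κ ((algebraMap (RatFunc ℂ) Om).comp g)
      (fun c => by
        show algebraMap (RatFunc ℂ) Om (aeval (RatFunc.X⁻¹ : RatFunc ℂ) (C c)) = _
        rw [aeval_C]
        exact alg_C c)
      ⟨X, by
        show algebraMap (RatFunc ℂ) Om (aeval (RatFunc.X⁻¹ : RatFunc ℂ) X) = _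
        rw [aeval_X, hκ, map_inv₀, tau]⟩
      ⟨1, by rw [map_one, hκ, mul_inv_cancel₀ tau_ne]⟩ a) h4
  rw [coe_evalRingHom, eval_monomial] at h5
  have h6 : ((algebraMap (RatFunc ℂ) Om).comp g).IsIntegralElem
      ((algebraMap (RatFunc ℂ) Om (algebraMap ℂ[X] (RatFunc ℂ) P) * κ ^ m) *
        (algebraMap (RatFunc ℂ) Om (algebraMap ℂ[X] (RatFunc ℂ) P) * κ ^ m)) :=
    RingHom.IsIntegralElem.mul _ h5 h5
  have h7 : (algebraMap (RatFunc ℂ) Om (algebraMap ℂ[X] (RatFunc ℂ) P) * κ ^ m) *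
        (algebraMap (RatFunc ℂ) Om (algebraMap ℂ[X] (RatFunc ℂ) P) * κ ^ m) =
      algebraMap (RatFunc ℂ) Om ((algebraMap ℂ[X] (RatFunc ℂ) P) ^ 2 * (RatFunc.X⁻¹) ^ m) := by
    rw [map_mul, map_pow, map_pow, map_inv₀, show algebraMap (RatFunc ℂ) Om RatFunc.X = tau from rfl,
      ← hκ]
    ring
  rw [h7] at h6
  have h8 := integral_reflect _ _ (algebraMap (RatFunc ℂ) Om).injective h6
  let v := RatFunc.inftyValuation ℂ
  have h9 := integral_of_range _ (algebraMap v.integer (RatFunc ℂ)) (fun a => by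
    refine ⟨⟨g a, ?_⟩, rfl⟩
    show v (g a) ≤ 1
    show v (aeval (RatFunc.X⁻¹ : RatFunc ℂ) a) ≤ 1
    rw [aeval_eq_sum_range]
    refine v.map_sum_le fun i _ => ?_
    rw [Algebra.smul_def, map_mul, map_pow]
    have e1 : v (algebraMap ℂ (RatFunc ℂ) (a.coeff i)) ≤ 1 := by
      by_cases hz : a.coeff i = 0
      · rw [hz, map_zero, map_zero]; exact zero_le_one
      · exact (RatFunc.inftyValuation.C ℂ hz).le
    have e2 : v (RatFunc.X⁻¹ : RatFunc ℂ) ≤ 1 := by
      have := RatFunc.inftyValuation.X_inv ℂ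
      rw [one_div] at this
      rw [show v = RatFunc.inftyValuation ℂ from rfl, this, ← WithZero.exp_zero,
        WithZero.exp_le_exp]
      norm_num
    exact mul_le_one' e1 (pow_le_one' e2 _)) h8
  have h10 := (Valuation.integer.integers v).mem_of_integral
    (show IsIntegral v.integer _ from h9)
  have h11 : v ((algebraMap ℂ[X] (RatFunc ℂ) P) ^ 2 * (RatFunc.X⁻¹) ^ m) ≤ 1 := h10
  have h12 : v (algebraMap ℂ[X] (RatFunc ℂ) P) = WithZero.exp (P.natDegree : ℤ) :=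
    RatFunc.inftyValuation.polynomial ℂ hP0
  have h13 : v (RatFunc.X⁻¹ : RatFunc ℂ) = WithZero.exp (-1 : ℤ) := by
    have := RatFunc.inftyValuation.X_inv ℂ
    rwa [one_div] at this
  rw [map_mul, map_pow, map_pow, h12, h13, ← WithZero.exp_nsmul, ← WithZero.exp_nsmul,
    ← WithZero.exp_add, ← WithZero.exp_zero, WithZero.exp_le_exp] at h11
  simp only [nsmul_eq_mul] at h11
  push_cast at h11
  omega

theorem W_poly {P : ℂ[X]} {m : ℕ} (h : 2 * P.natDegree ≤ m) : aeval tau P ∈ W m := by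
  refine W_pow (k := 2) (by norm_num) ?_
  rw [← map_pow]
  have hd : (P ^ 2).natDegree ≤ m := (natDegree_pow_le).trans (by omega)
  show IsIntegral A0 _
  have hm : monomial (m * 2) (aeval tau (P ^ 2)) ∈ A0 := by
    rw [aeval_eq_sum_range, map_sum]
    refine A0.sum_mem fun i hi => ?_
    have hi' : i ≤ m := by
      have := Finset.mem_range.mp hi
      omega
    rw [← smul_monomial]
    refine A0.smul_mem ?_ _
    have e : (monomial (m * 2) (tau ^ i) : Om[X]) =
        (C tau * X ^ 2) ^ i * (X ^ 2) ^ (m - i) := by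
      have e2 : m * 2 = 2 * i + 2 * (m - i) := by omega
      rw [mul_pow, ← C_pow, ← pow_mul, ← pow_mul, mul_assoc, ← pow_add, ← e2,
        C_mul_X_pow_eq_monomial]
    rw [e]
    exact A0.mul_mem (A0.pow_mem Tower.t_mem _) (A0.pow_mem Tower.s_mem _)
  exact isIntegral_algebraMap (R := A0) (x := ⟨_, hm⟩)

theorem st_W : ST_W :=
  ⟨fun _ _ _ => W_add, fun _ _ _ _ => W_mul, fun _ c _ => W_smul c, fun _ _ _ => W_pow,
    fun σ _ _ => W_gal σ, fun _ _ => W_rat, fun _ _ => W_poly⟩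

end Pool.Agent.Helper67.RG
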