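import Pool.Agent.Helper91.RG.GRAD
import Pool.Agent.Helper91.RG.KILL
import Pool.Agent.Helper67.RG.PAIR
import Pool.Agent.Helper67.RG.W

/-!
# Modules FT, FD, GEN
-/

namespace Pool.Agent.Helper67.RG

open Polynomial

/-- Coefficients of the elements of `A0`. -/
theorem A0_coeff {a : Om[X]} (ha : a ∈ A0) (i : ℕ) :
    ∃ P : ℂ[X], a.coeff i = aeval tau P ∧ 2 * P.natDegree ≤ i ∧ (i % 2 = 1 → P = 0) := by
  revert i
  refine Algebra.adjoin_induction (p := fun a _ => ∀ i, ∃ P : ℂ[X], a.coeff i = aeval tau P ∧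
    2 * P.natDegree ≤ i ∧ (i % 2 = 1 → P = 0)) ?_ ?_ ?_ ?_ ha
  · rintro x hx i
    rcases hx with rfl | hx
    · rw [coeff_X_pow]
      split_ifs with h
      · exact ⟨1, by simp, by simp, by omega⟩
      · exact ⟨0, by simp, by simp, fun _ => rfl⟩
    · rw [Set.mem_singleton_iff] at hx
      subst hx
      rw [coeff_C_mul_X_pow]
      split_ifs with h
      · exact ⟨X, by simp, by simp [h], by omega⟩
      · exact ⟨0, by simp, by simp, fun _ => rfl⟩
  · intro c i
    have : algebraMap ℂ Om[X] c = C (algebraMap ℂ Om c) := rfl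
    rw [this, coeff_C]
    split_ifs with h
    · exact ⟨C c, by simp, by simp, by omega⟩
    · exact ⟨0, by simp, by simp, fun _ => rfl⟩
  · intro x y _ _ hx hy i
    obtain ⟨P, h1, h2, h3⟩ := hx i
    obtain ⟨Q, h4, h5, h6⟩ := hy i
    refine ⟨P + Q, by rw [coeff_add, h1, h4, map_add], ?_, fun h => by rw [h3 h, h6 h, add_zero]⟩
    have := natDegree_add_le P Q
    omega
  · intro x y _ _ hx hy i
    choose P h1 h2 h3 using hx
    choose Q h4 h5 h6 using hy
    refine ⟨∑ p ∈ Finset.HasAntidiagonal.antidiagonal i, P p.1 * Q p.2, ?_, ?_, ?_⟩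
    · rw [coeff_mul, map_sum]
      exact Finset.sum_congr rfl fun p _ => by rw [h1, h4, map_mul]
    · have : (∑ p ∈ Finset.HasAntidiagonal.antidiagonal i, P p.1 * Q p.2).natDegree ≤ i / 2 := by
        refine natDegree_sum_le_of_forall_le _ _ fun p hp => ?_
        have hp' := Finset.HasAntidiagonal.mem_antidiagonal.mp hp
        have h7 := natDegree_mul_le (p := P p.1) (q := Q p.2)
        have h8 := h2 p.1
        have h9 := h5 p.2
        omega
      omega
    · intro hi
      refine Finset.sum_eq_zero fun p hp => ?_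
      have hp' := Finset.HasAntidiagonal.mem_antidiagonal.mp hp
      rcases Nat.mod_two_eq_zero_or_one p.1 with h | h
      · have : p.2 % 2 = 1 := by omega
        rw [h6 _ this, mul_zero]
      · rw [h3 _ h, zero_mul]

theorem A0_monomial {P : ℂ[X]} {l : ℕ} (h : P.natDegree ≤ l) :
    monomial (2 * l) (aeval tau P) ∈ A0 := by
  rw [aeval_eq_sum_range, map_sum]
  refine A0.sum_mem fun i hi => ?_
  have hi' : i ≤ l := by
    have := Finset.mem_range.mp hi
    omega
  rw [← smul_monomial]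
  refine A0.smul_mem ?_ _
  have e : (monomial (2 * l) (tau ^ i) : Om[X]) =
      (C tau * X ^ 2) ^ i * (X ^ 2) ^ (l - i) := by
    have e2 : 2 * l = 2 * i + 2 * (l - i) := by omega
    rw [mul_pow, ← C_pow, ← pow_mul, ← pow_mul, mul_assoc, ← pow_add, ← e2,
      C_mul_X_pow_eq_monomial]
  rw [e]
  exact A0.mul_mem (A0.pow_mem Tower.t_mem _) (A0.pow_mem Tower.s_mem _)

namespace Tower

variable {ν : ℕ} {D : Pell ν} (T : Tower D)

theorem A0_le_B : A0 ≤ T.B := by
  intro a ha
  refine ⟨isIntegral_algebraMap (R := A0) (x := ⟨a, ha⟩), fun m => ?_⟩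
  obtain ⟨P, h1, h2, h3⟩ := A0_coeff ha m
  rw [h1, aeval_tau_eq]
  rcases Nat.mod_two_eq_zero_or_one m with h | h
  · rw [T.E_congr (n := 0) (by omega)]
    exact T.alg_mem_E _
  · rw [h3 h, map_zero, map_zero]
    exact Submodule.zero_mem _

end Tower

theorem st_FT' (hFIN : ST_FIN) : ST_FT := by
  intro ν D T
  obtain ⟨K, b, hb, hz⟩ := hFIN ν D T
  rw [← Subalgebra.fg_iff_finiteType]
  classical
  refine ⟨{X ^ 2, C tau * X ^ 2} ∪ Finset.image b Finset.univ, ?_⟩
  refine le_antisymm ?_ ?_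
  · rw [Algebra.adjoin_le_iff]
    intro x hx
    rw [Finset.coe_union, Set.mem_union] at hx
    rcases hx with hx | hx
    · rw [Finset.coe_pair] at hx
      rcases hx with rfl | hx
      · exact T.A0_le_B Tower.s_mem
      · rw [Set.mem_singleton_iff] at hx
        subst hx
        exact T.A0_le_B Tower.t_mem
    · obtain ⟨k, -, rfl⟩ := Finset.mem_image.mp (Finset.mem_coe.mp hx)
      exact hb k
  · intro z hzB
    obtain ⟨a, ha, rfl⟩ := hz z hzB
    refine Subalgebra.sum_mem _ fun k _ => Subalgebra.mul_mem _ ?_ ?_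
    · have : A0 ≤ Algebra.adjoin ℂ
          (({X ^ 2, C tau * X ^ 2} ∪ Finset.image b Finset.univ : Finset Om[X]) : Set Om[X]) := by
        refine Algebra.adjoin_mono ?_
        rw [Finset.coe_union, Finset.coe_pair]
        exact Set.subset_union_left
      exact this (ha k)
    · refine Algebra.subset_adjoin ?_
      rw [Finset.coe_union]
      exact Or.inr (Finset.mem_coe.mpr (Finset.mem_image.mpr ⟨k, Finset.mem_univ _, rfl⟩))

theorem st_FD' (hFIN : ST_FIN) : ST_FD := by
  intro ν D T n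
  obtain ⟨K, b, hb, hz⟩ := hFIN ν D T
  let co : T.grB n →ₗ[ℂ] Om :=
    { toFun := fun z => ((z : T.B) : Om[X]).coeff n
      map_add' := fun x y => by simp
      map_smul' := fun c x => by simp }
  let U : Submodule ℂ Om := Submodule.span ℂ
    (Set.range fun p : Fin (n + 1) × Fin (n + 1) × Fin K => tau ^ (p.1 : ℕ) *
      (b p.2.2).coeff p.2.1)
  have hU : Module.Finite ℂ U := FiniteDimensional.span_of_finite ℂ (Set.finite_range _)
  have hco : ∀ z, co z ∈ U := by
    intro z
    obtain ⟨a, ha, hza⟩ := hz ((z : T.B) : Om[X]) (z : T.B).2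
    show ((z : T.B) : Om[X]).coeff n ∈ U
    rw [hza, finsetSum_coeff]
    refine Submodule.sum_mem _ fun k _ => ?_
    rw [coeff_mul]
    refine Submodule.sum_mem _ fun p hp => ?_
    have hp' := Finset.HasAntidiagonal.mem_antidiagonal.mp hp
    obtain ⟨P, h1, h2, -⟩ := A0_coeff (ha k) p.1
    rw [h1, aeval_eq_sum_range, Finset.sum_mul]
    refine Submodule.sum_mem _ fun i hi => ?_
    have hi' := Finset.mem_range.mp hi
    rw [smul_mul_assoc]
    refine Submodule.smul_mem _ _ (Submodule.subset_span ⟨(⟨i, by omega⟩, ⟨p.2, by omega⟩, k), rfl⟩)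
  have hinj : Function.Injective co := by
    intro x y hxy
    obtain ⟨z, hz⟩ := x.2
    obtain ⟨z', hz'⟩ := y.2
    apply Subtype.ext
    apply Subtype.ext
    have h : ((x : T.B) : Om[X]).coeff n = ((y : T.B) : Om[X]).coeff n := hxy
    rw [hz, hz', coeff_monomial, if_pos rfl, coeff_monomial, if_pos rfl] at h
    rw [hz, hz', h]
  exact Module.Finite.of_injective (co.codRestrict U hco) (fun x y h => hinj
    (congrArg Subtype.val h))

theorem st_GEN' (hFIN : ST_FIN) : ST_GEN := by
  intro ν D T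
  obtain ⟨K, b, hb, hz⟩ := hFIN ν D T
  refine ⟨∑ k, (b k).natDegree, fun m hm z hz1 => ?_⟩
  have hlam := Tower.lam_ne D
  set κ := (D.lam 1 - D.lam 0)⁻¹ with hκ
  have hκ1 : κ * (D.lam 1 - D.lam 0) = 1 := inv_mul_cancel₀ hlam
  obtain ⟨a, ha, hza⟩ := hz (z : Om[X]) z.2
  obtain ⟨c, hc⟩ := hz1
  -- the set of sums `x0 a + x1 b`
  have key : ∀ (k : Fin K) (p : ℕ × ℕ), p.1 + p.2 = m + 1 →
      ∃ u v : Om, monomial m u ∈ T.B ∧ monomial m v ∈ T.B ∧
        (a k).coeff p.1 * (b k).coeff p.2 = T.r 0 * u + T.r 1 * v := by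
    intro k p hp
    by_cases hb0 : (b k).coeff p.2 = 0
    · exact ⟨0, 0, by simp, by simp, by rw [hb0]; simp⟩
    have hp2 : p.2 ≤ m := by
      have h1 := le_natDegree_of_ne_zero hb0
      have h2 := Finset.single_le_sum (f := fun k => (b k).natDegree) (fun _ _ => Nat.zero_le _)
        (Finset.mem_univ k)
      omega
    obtain ⟨P, h1, h2, h3⟩ := A0_coeff (ha k) p.1
    rcases Nat.mod_two_eq_zero_or_one p.1 with hpar | hpar
    · obtain ⟨l, hl⟩ : ∃ l, p.1 = 2 * l + 2 := ⟨p.1 / 2 - 1, by omega⟩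
      have hbB : monomial p.2 ((b k).coeff p.2) ∈ T.B := T.comp_mem_of_kill st_KILL (hb k) p.2
      have hx : ∀ (i : Fin 12) (Q : ℂ[X]), Q.natDegree ≤ l →
          monomial m (T.r i * (aeval tau Q * (b k).coeff p.2)) ∈ T.B := by
        intro i Q hQ
        have h4 := T.B.mul_mem (T.xx_mem i) (T.B.mul_mem (T.A0_le_B (A0_monomial hQ)) hbB)
        rw [Tower.xx, monomial_mul_monomial, monomial_mul_monomial] at h4
        have e : 1 + (2 * l + p.2) = m := by omega
        rwa [e] at h4
      have hdiv : P.divX.natDegree ≤ l := by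
        rw [natDegree_divX_eq_natDegree_tsub_one]; omega
      have hQ0 : (C κ * (C (P.coeff 0) + C (D.lam 1) * P.divX)).natDegree ≤ l := by
        refine (natDegree_C_mul_le _ _).trans (natDegree_add_le_of_degree_le (by simp) ?_)
        exact (natDegree_C_mul_le _ _).trans hdiv
      have hQ1 : (-(C κ * (C (P.coeff 0) + C (D.lam 0) * P.divX))).natDegree ≤ l := by
        rw [natDegree_neg]
        refine (natDegree_C_mul_le _ _).trans (natDegree_add_le_of_degree_le (by simp) ?_)
        exact (natDegree_C_mul_le _ _).trans hdiv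
      refine ⟨_, _, hx 0 _ hQ0, hx 1 _ hQ1, ?_⟩
      have hP : P = C (P.coeff 0) + X * P.divX := by
        rw [add_comm]; exact (P.X_mul_divX_add).symm
      have hr0 := T.hr 0
      have hr1 := T.hr 1
      have e1 : (a k).coeff p.1 = algebraMap ℂ Om (P.coeff 0) + tau * aeval tau P.divX := by
        rw [h1]
        nth_rewrite 1 [hP]
        rw [map_add, map_mul, aeval_C, aeval_X]
      have hκ2 : algebraMap ℂ Om κ * (algebraMap ℂ Om (D.lam 1) - algebraMap ℂ Om (D.lam 0)) = 1 := by
        rw [← map_sub, ← map_mul, hκ1, map_one]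
      rw [e1]
      simp only [map_mul, map_add, map_neg, aeval_C]
      generalize aeval tau P.divX = q
      generalize algebraMap ℂ Om (P.coeff 0) = p0
      generalize algebraMap ℂ Om κ = k0 at *
      generalize algebraMap ℂ Om (D.lam 0) = l0 at *
      generalize algebraMap ℂ Om (D.lam 1) = l1 at *
      generalize (b k).coeff p.2 = bb
      have : T.r 0 * (T.r 0 * (k0 * (p0 + l1 * q) * bb)) +
          T.r 1 * (T.r 1 * (-(k0 * (p0 + l0 * q)) * bb)) =
          (T.r 0 ^ 2 * (k0 * (p0 + l1 * q)) - T.r 1 ^ 2 * (k0 * (p0 + l0 * q))) * bb := by ring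
      rw [this, hr0, hr1]
      linear_combination (-(p0 + tau * q) * bb) * hκ2
    · rw [h1, h3 hpar]
      exact ⟨0, 0, by simp, by simp, by simp⟩
  choose! u v hu hv huv using key
  let U : Om := ∑ k, ∑ p ∈ Finset.HasAntidiagonal.antidiagonal (m + 1), u k p
  let V : Om := ∑ k, ∑ p ∈ Finset.HasAntidiagonal.antidiagonal (m + 1), v k p
  have hU : monomial m U ∈ T.B := by
    simp only [U, map_sum]
    exact T.B.sum_mem fun k _ => T.B.sum_mem fun p hp =>
      hu k p (Finset.HasAntidiagonal.mem_antidiagonal.mp hp)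
  have hV : monomial m V ∈ T.B := by
    simp only [V, map_sum]
    exact T.B.sum_mem fun k _ => T.B.sum_mem fun p hp =>
      hv k p (Finset.HasAntidiagonal.mem_antidiagonal.mp hp)
  refine ⟨⟨_, hU⟩, ⟨U, rfl⟩, ⟨_, hV⟩, ⟨V, rfl⟩, ?_⟩
  apply Subtype.ext
  rw [Subalgebra.coe_add, Subalgebra.coe_mul, Subalgebra.coe_mul, hc]
  show monomial (m + 1) c = T.xx 0 * monomial m U + T.xx 1 * monomial m V
  rw [Tower.xx, Tower.xx, monomial_mul_monomial, monomial_mul_monomial, add_comm 1 m, ← map_add]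
  congr 1
  have h5 : c = (z : Om[X]).coeff (m + 1) := by rw [hc, coeff_monomial, if_pos rfl]
  rw [h5, hza, finsetSum_coeff]
  simp only [U, V, Finset.mul_sum, ← Finset.sum_add_distrib]
  refine Finset.sum_congr rfl fun k _ => ?_
  rw [coeff_mul]
  exact Finset.sum_congr rfl fun p hp =>
    huv k p (Finset.HasAntidiagonal.mem_antidiagonal.mp hp)

end Pool.Agent.Helper67.RG
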