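import Pool.Agent.Helper49.RG.GOOD
import Pool.Agent.Helper67.RG.FG

/-!
# Module FIN
-/

namespace Pool.Agent.Helper67.RG

open Polynomial Pool.Agent.Helper49.RG

/-- An abstract finiteness criterion: a set of elements of `M` which are integral over the normal
noetherian domain `A` and lie in a finitely generated field extension is contained in a finite
module. -/
theorem finite_of_integral {A M : Type} [CommRing A] [IsDomain A] [IsIntegrallyClosed A]
    [IsNoetherianRing A] [CharZero A] [CommRing M] [IsDomain M] [Algebra A M]
    (N : Submodule A M)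
    (hint : ∀ z ∈ N, IsIntegral A z) (L : Type) [Field L] [Algebra M L] [IsFractionRing M L]
    [Algebra A L] [IsScalarTower A M L] [Algebra (FractionRing A) L]
    [IsScalarTower A (FractionRing A) L] (S : Set L) (hS : S.Finite)
    (hSint : ∀ x ∈ S, IsIntegral (FractionRing A) x)
    (hN : ∀ z ∈ N, algebraMap M L z ∈ IntermediateField.adjoin (FractionRing A) S) :
    N.FG := by
  have : CharZero (FractionRing A) :=
    charZero_of_injective_algebraMap (IsFractionRing.injective A (FractionRing A))
  have : Finite S := hS
  let L' := IntermediateField.adjoin (FractionRing A) S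
  have : FiniteDimensional (FractionRing A) L' :=
    IntermediateField.finiteDimensional_adjoin hSint
  have hno : IsNoetherian A (integralClosure A L') :=
    IsIntegralClosure.isNoetherian A (FractionRing A) L' (integralClosure A L')
  have hAL' : IsScalarTower A L' L := by
    refine ⟨fun a b c => ?_⟩
    have h1 : ((a • b : L') : L) = a • (b : L) := rfl
    show ((a • b : L') : L) * c = a • ((b : L) * c)
    rw [h1, smul_mul_assoc]
  have hML : Function.Injective (algebraMap M L) := IsFractionRing.injective M L
  let φ : N →ₗ[A] integralClosure A L' :=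
    { toFun := fun z => ⟨⟨algebraMap M L z, hN z z.2⟩, by
        have h1 : IsIntegral A (algebraMap M L z) := (hint z z.2).map (IsScalarTower.toAlgHom A M L)
        have h2 : Function.Injective (algebraMap L' L) := Subtype.val_injective
        exact (isIntegral_algebraMap_iff h2).mp h1⟩
      map_add' := fun x y => by
        apply Subtype.ext; apply Subtype.ext; simp
      map_smul' := fun c x => by
        apply Subtype.ext; apply Subtype.ext
        simp only [Submodule.coe_smul, RingHom.id_apply]
        rw [Algebra.smul_def, map_mul, ← IsScalarTower.algebraMap_apply]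
        show _ = ((c • (⟨algebraMap M L x, hN x x.2⟩ : L') : L') : L)
        rw [Algebra.smul_def]
        rfl }
  have hφ : Function.Injective φ := by
    intro x y h
    apply Subtype.ext
    apply hML
    exact congrArg (fun t => ((t : L') : L)) (congrArg Subtype.val h)
  have hNn : IsNoetherian A N := isNoetherian_of_injective φ hφ
  exact (Submodule.fg_top N).mp (hNn.noetherian ⊤)

theorem st_FIN : ST_FIN := by
  intro ν D T
  let A := MvPolynomial (Fin 2) ℂ
  let L := FractionRing Om[X]
  let _ : Algebra A Om[X] := (psi : A →+* Om[X]).toAlgebra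
  have hst : IsScalarTower A Om[X] L := inferInstance
  have hAM : ∀ x : A, algebraMap A L x = algebraMap Om[X] L (psi x) := fun x =>
    IsScalarTower.algebraMap_apply A Om[X] L x
  have hML : Function.Injective (algebraMap Om[X] L) := IsFractionRing.injective Om[X] L
  have hAL : Function.Injective (algebraMap A L) := by
    intro x y hxy
    rw [hAM, hAM] at hxy
    exact psi_injective (hML hxy)
  have hfs : FaithfulSMul A L := (faithfulSMul_iff_algebraMap_injective A L).2 hAL
  let _ : Algebra (FractionRing A) L := FractionRing.liftAlgebra A L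
  have hst2 : IsScalarTower A (FractionRing A) L := FractionRing.isScalarTower_liftAlgebra A L
  -- the embedding of constants
  let j : Om →+* L := (algebraMap Om[X] L).comp C
  have hjc : ∀ c : ℂ, j (algebraMap ℂ Om c) =
      algebraMap (FractionRing A) L (algebraMap A (FractionRing A) (MvPolynomial.C c)) := by
    intro c
    rw [← IsScalarTower.algebraMap_apply A (FractionRing A) L, hAM, psi, MvPolynomial.aeval_C]
    rfl
  have hX0 : (algebraMap A (FractionRing A) (MvPolynomial.X 0)) ≠ 0 := by
    rw [Ne, map_eq_zero_iff _ (IsFractionRing.injective A (FractionRing A))]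
    exact MvPolynomial.X_ne_zero _
  have hs : algebraMap A L (MvPolynomial.X 0) = algebraMap Om[X] L X ^ 2 := by
    rw [hAM, psi, MvPolynomial.aeval_X, ← map_pow]
    rfl
  have ht : algebraMap A L (MvPolynomial.X 1) = j tau * algebraMap Om[X] L X ^ 2 := by
    show _ = algebraMap Om[X] L (C tau) * _
    rw [hAM, psi, MvPolynomial.aeval_X, ← map_pow, ← map_mul]
    rfl
  have hXL : algebraMap Om[X] L X ≠ 0 := by
    rw [Ne, map_eq_zero_iff _ hML]
    exact X_ne_zero
  have hjt : j tau = algebraMap (FractionRing A) L
      (algebraMap A (FractionRing A) (MvPolynomial.X 1) /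
        algebraMap A (FractionRing A) (MvPolynomial.X 0)) := by
    rw [map_div₀, ← IsScalarTower.algebraMap_apply A (FractionRing A) L,
      ← IsScalarTower.algebraMap_apply A (FractionRing A) L, hs, ht,
      mul_div_cancel_right₀ _ (pow_ne_zero 2 hXL)]
  -- everything is integral over `K`
  have hjtint : IsIntegral (FractionRing A) (j tau) := by rw [hjt]; exact isIntegral_algebraMap
  have hjcint : ∀ c : ℂ, IsIntegral (FractionRing A) (j (algebraMap ℂ Om c)) := by
    intro c; rw [hjc]; exact isIntegral_algebraMap
  have hXint : IsIntegral (FractionRing A) (algebraMap Om[X] L X) := by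
    refine IsIntegral.of_pow (n := 2) (by norm_num) ?_
    rw [← hs, IsScalarTower.algebraMap_apply A (FractionRing A) L]
    exact isIntegral_algebraMap
  have hrint : ∀ i, IsIntegral (FractionRing A) (j (T.r i)) := by
    intro i
    refine IsIntegral.of_pow (n := 2) (by norm_num) ?_
    rw [← map_pow, T.hr, map_sub]
    exact hjtint.sub (hjcint _)
  have hpint : ∀ P : ℂ[X], IsIntegral (FractionRing A) (j (aeval (tau ^ 3) P)) := by
    intro P
    rw [aeval_eq_sum_range, map_sum]
    refine IsIntegral.sum _ fun i _ => ?_
    rw [Algebra.smul_def, map_mul, map_pow, map_pow]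
    exact (hjcint _).mul ((hjtint.pow 3).pow i)
  have hrrint : ∀ s : Finset (Fin 12), IsIntegral (FractionRing A) (j (T.rr s)) := by
    intro s
    rw [Tower.rr, map_prod]
    exact IsIntegral.prod _ fun i _ => hrint i
  have hwint : IsIntegral (FractionRing A) (j T.w) := by
    have hν := D.hν
    refine IsIntegral.of_pow (n := ν) (by omega) ?_
    rw [← map_pow, T.hw', Tower.G, map_add, map_mul, map_mul]
    exact ((hpint _).mul (hrrint _)).add ((hpint _).mul (hrrint _))
  let S : Set L := {algebraMap Om[X] L X, j T.w} ∪ Set.range fun i => j (T.r i)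
  have hSfin : S.Finite := (Set.toFinite _).union (Set.finite_range _)
  let N : Submodule A Om[X] :=
    { carrier := {z | z ∈ T.B}
      add_mem' := fun ha hb => T.B.add_mem ha hb
      zero_mem' := T.B.zero_mem
      smul_mem' := by
        intro c z hz
        show c • z ∈ T.B
        rw [Algebra.smul_def]
        refine T.B.mul_mem (T.A0_le_B ?_) hz
        show psi c ∈ A0
        rw [← psi_range]
        exact ⟨c, rfl⟩ }
  have hint : ∀ z ∈ N, IsIntegral A z := by
    intro z hz
    refine integral_of_range (algebraMap A0 Om[X]) (algebraMap A Om[X]) (fun a => ?_) hz.1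
    obtain ⟨b, hb⟩ : (a : Om[X]) ∈ psi.range := psi_range.ge a.2
    exact ⟨b, hb⟩
  -- membership in the field
  let F := IntermediateField.adjoin (FractionRing A) S
  have hF : S ⊆ F := IntermediateField.subset_adjoin _ _
  have hFX : algebraMap Om[X] L X ∈ F := hF (Or.inl (Or.inl rfl))
  have hFw : j T.w ∈ F := hF (Or.inl (Or.inr rfl))
  have hFr : ∀ i, j (T.r i) ∈ F := fun i => hF (Or.inr ⟨i, rfl⟩)
  have hFt : j tau ∈ F := by rw [hjt]; exact F.algebraMap_mem _
  have hFp : ∀ P : ℂ[X], j (aeval tau P) ∈ F := by
    intro P
    rw [aeval_eq_sum_range, map_sum]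
    refine F.sum_mem fun i _ => ?_
    rw [Algebra.smul_def, map_mul, map_pow, hjc]
    exact F.mul_mem (F.algebraMap_mem _) (F.pow_mem hFt i)
  have hFK : ∀ c : RatFunc ℂ, j (algebraMap (RatFunc ℂ) Om c) ∈ F := by
    intro c
    rw [← RatFunc.num_div_denom c, map_div₀, map_div₀, ← aeval_tau_eq, ← aeval_tau_eq]
    exact F.div_mem (hFp _) (hFp _)
  have hFE : ∀ (m : ℕ) (e : Om), e ∈ T.E m → j e ∈ F := by
    intro m e he
    refine Submodule.span_induction (p := fun e _ => j e ∈ F) ?_ ?_ ?_ ?_ he
    · rintro _ ⟨s, i, -, -, rfl⟩
      rw [map_mul, map_pow, Tower.rr, map_prod]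
      exact F.mul_mem (F.prod_mem fun i _ => hFr i) (F.pow_mem hFw i)
    · rw [map_zero]; exact F.zero_mem
    · intro x y _ _ hx hy
      rw [map_add]; exact F.add_mem hx hy
    · intro c x _ hx
      rw [Algebra.smul_def, map_mul]
      exact F.mul_mem (hFK c) hx
  have hN : ∀ z ∈ N, algebraMap Om[X] L z ∈ F := by
    intro z hz
    rw [Polynomial.as_sum_support_C_mul_X_pow z, map_sum]
    refine F.sum_mem fun m _ => ?_
    rw [map_mul, map_pow]
    exact F.mul_mem (hFE m _ (hz.2 m)) (F.pow_mem hFX m)
  have hfg : N.FG := finite_of_integral N hint L S hSfin (by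
    rintro x ((rfl | rfl) | ⟨i, rfl⟩)
    · exact hXint
    · exact hwint
    · exact hrint i) hN
  obtain ⟨K, b, hb⟩ := Submodule.fg_iff_exists_fin_generating_family.mp hfg
  refine ⟨K, b, fun k => ?_, fun z hz => ?_⟩
  · have : b k ∈ N := by rw [← hb]; exact Submodule.subset_span ⟨k, rfl⟩
    exact this
  · have hz' : z ∈ Submodule.span A (Set.range b) := by rw [hb]; exact hz
    obtain ⟨c, hc⟩ := (Submodule.mem_span_range_iff_exists_fun A).1 hz'
    refine ⟨fun k => psi (c k), fun k => ?_, ?_⟩
    · rw [← psi_range]; exact ⟨c k, rfl⟩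
    · rw [← hc]
      exact Finset.sum_congr rfl fun k _ => Algebra.smul_def _ _

end Pool.Agent.Helper67.RG
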