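import Pool.Agent.Helper67.RG.FLAT

/-!
# Module LIFT
-/

namespace Pool.Agent.Helper67.RG

open MvPolynomial

theorem st_LIFT (hSTEP : ST_STEP) : ST_LIFT := by
  intro g d X E A _ _ _ _ F b0 S L N hN D k
  have : IsNoetherianRing A := Algebra.FiniteType.isNoetherianRing ℂ A
  have hq : L.q ≤ RingHom.ker b0 := L.lt.le
  refine small_induction (RingHom.ker b0)
    (fun I => L.q ≤ I → ∃ W, RootsMod L D I W) ?_ ?_ (L.q ⊔ RingHom.ker b0 ^ (k + 1)) (k + 1)
    le_sup_right (sup_le hq (Ideal.pow_le_self (by omega))) le_sup_left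
  · intro _
    choose W hW hW' using fun i => S.surj (D.m i) (hN.trans (D.hm i)) (D.a i) (D.ha i)
    refine ⟨W, fun i => ⟨hW i, hW' i, ?_⟩⟩
    have hn : F.n0 ≤ D.m i * E.ν * (L.n + 1) := by
      have h1 : 1 ≤ E.ν := le_trans (by norm_num) E.hν
      calc F.n0 ≤ D.m i := hN.trans (D.hm i)
        _ ≤ D.m i * (E.ν * (L.n + 1)) := Nat.le_mul_of_pos_right _ (by positivity)
        _ = D.m i * E.ν * (L.n + 1) := by ring
    refine S.ker _ hn _ (Submodule.sub_mem _ ?_ (ev_mem F L.hy (D.hP i))) ?_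
    · have h1 := SetLike.pow_mem_graded E.ν (hW i)
      have h2 := SetLike.pow_mem_graded (D.m i * E.ν) L.hu
      have h3 := SetLike.mul_mem_graded h1 h2
      have e : D.m i * E.ν * (L.n + 1) = E.ν • D.m i + (D.m i * E.ν) • L.n := by
        simp only [smul_eq_mul]; ring
      rw [e]
      exact h3
    · rw [map_sub, map_mul, map_pow, map_pow, hW', ev_at, D.haP,
        show (fun i => S.sp (L.y i)) = fun i => E.x i * S.sp L.u from funext L.y0,
        aeval_scale _ _ _ _ (D.hP i), sub_self]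
  · intro I j hj hI ε hε hεI hm ih hqI
    exact hSTEP g d X E A F b0 S L N hN D I j hj hI hqI ε hε hεI hm (ih (hqI.trans le_sup_left))

end Pool.Agent.Helper67.RG
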