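import Pool.Agent.Helper67.RG.GBasic

/-!
# Theorem A: assembly of the upper bound
-/

namespace Pool.Agent.Helper67.RG

open MvPolynomial

theorem st_THMA (hSEC : ST_SEC) (hREL : ST_REL) (hKRULL : ST_KRULL) (hLIFT : ST_LIFT)
    (hPTS : ST_PTS) (hINJ : ST_INJ) (hEMB : ST_EMB) (hSURJ : ST_SURJ) : ST_THMA := by
  intro g d hd X E N hN
  by_contra hlt
  obtain ⟨A, _, _, _, _, F, b0, hr, hiso, hfin, hdim⟩ := hN
  obtain ⟨S⟩ := exists_at F b0 hiso
  have hh : (780 : ℕ∞) < (RingHom.ker b0).height := by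
    refine lt_of_lt_of_le ?_ hdim
    have : (780 : ℕ∞) = ((780 : ℕ) : ℕ∞) := rfl
    rw [this]
    exact_mod_cast (by omega : 780 < N)
  obtain ⟨L⟩ := hKRULL g d X E A F b0 S (hREL g d X E A F b0 S (hSEC g d X E A F b0 S hr)) hh
  obtain ⟨D⟩ := E.roots F.n0
  have hν : 1 ≤ E.ν := le_trans (by norm_num) E.hν
  have key := hPTS g d A F b0 L.q L.prime L.lt L.f L.hf (D.m D.i0) E.ν
    (D.m D.i0 * E.ν * (L.n + 1)) (D.hm _) (L.u ^ (D.m D.i0 * E.ν)) (ev F L.y (D.P D.i0))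
    (D.m D.i0 * E.ν * L.n) (by
      have := SetLike.pow_mem_graded (D.m D.i0 * E.ν) L.hu
      rwa [smul_eq_mul] at this) (by ring) (ev_mem F L.hy (D.hP D.i0)) (fun k => by
      obtain ⟨W, hW⟩ := hLIFT g d X E A F b0 S L F.n0 le_rfl D k
      exact ⟨W D.i0, (hW D.i0).1, (hW D.i0).2.2⟩) hν
  refine key (hfin.subset ?_)
  rintro b ⟨hq, hf, W, hW, hWe⟩
  obtain ⟨hu, ξ, hξ, hind, hy⟩ := L.near b hf
  have hy' : (fun i => F.sp b (L.y i)) = fun i => ξ i * F.sp b L.u := funext hy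
  have hker : ∀ (l : ℕ) (P : MvPolynomial (Fin 12) ℂ), P.IsHomogeneous l → aeval E.x P = 0 →
      aeval ξ P = 0 := by
    intro l P hP h0
    have h1 := L.key l P hP h0
    have h2 : F.sp b (ev F L.y P) = 0 := by
      have h3 : ∀ z ∈ L.q • F.gr (l * (L.n + 1)), F.sp b z = 0 := by
        intro z hz
        refine Submodule.smul_induction_on hz (fun a ha z _ => ?_) (fun z z' h h' => ?_)
        · rw [Algebra.smul_def, map_mul, F.sp_alg, show b a = 0 from hq ha, map_zero, zero_mul]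
        · rw [map_add, h, h', add_zero]
      exact h3 _ h1
    rw [ev_sp, hy', aeval_scale ξ _ l P hP] at h2
    exact (mul_eq_zero.mp h2).resolve_right (pow_ne_zero _ hu)
  have hiff := hINJ g d X E (F.fib b) ξ hξ hind hker
  have hroot : W ^ E.ν = aeval ξ (D.P D.i0) := by
    rw [ev_sp, hy', aeval_scale ξ _ _ _ (D.hP D.i0), map_pow] at hWe
    exact mul_right_cancel₀ (pow_ne_zero _ hu) hWe
  obtain ⟨φ, hφ, hφg⟩ := hEMB g d X E F.n0 D (F.fib b) ξ hξ hiff W hW hroot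
  exact hSURJ g d hd X E (F.fib b) φ hφ hφg

end Pool.Agent.Helper67.RG
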