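import Pool.Agent.Helper67.RG.W

/-!
# Module WH
-/

namespace Pool.Agent.Helper67.RG

open Polynomial

theorem f3_eq {ν : ℕ} (D : Pell ν) :
    (D.f1 * D.f2).comp (X ^ 3) = ∏ i : Fin 12, (X - C (D.lam i)) := by
  rw [mul_comp, D.h1, D.h2, ← Finset.prod_union]
  · congr 1
  · rw [Finset.disjoint_left]
    intro i
    simp only [I1, I2, Finset.mem_filter, Finset.mem_univ, true_and]
    omega

theorem f3_squarefree {ν : ℕ} (D : Pell ν) : Squarefree ((D.f1 * D.f2).comp (X ^ 3)) := by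
  rw [f3_eq]
  exact (separable_prod_X_sub_C_iff.2 D.inj).squarefree

theorem f3_natDegree {ν : ℕ} (D : Pell ν) : ((D.f1 * D.f2).comp (X ^ 3)).natDegree = 12 := by
  rw [f3_eq, natDegree_prod_of_monic _ _ (fun i _ => monic_X_sub_C _)]
  simp

/-- If `b² F` is a polynomial with `F` squarefree then `b` is a polynomial. -/
theorem rat_of_sq {F Q : ℂ[X]} (hF : Squarefree F) {b : RatFunc ℂ}
    (h : b ^ 2 * algebraMap ℂ[X] (RatFunc ℂ) F = algebraMap ℂ[X] (RatFunc ℂ) Q) :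
    ∃ P : ℂ[X], b = algebraMap ℂ[X] (RatFunc ℂ) P := by
  have hd : algebraMap ℂ[X] (RatFunc ℂ) b.denom ≠ 0 := by
    rw [Ne, map_eq_zero_iff _ (RatFunc.algebraMap_injective ℂ)]
    exact b.denom_ne_zero
  have hb : b = algebraMap ℂ[X] (RatFunc ℂ) b.num / algebraMap ℂ[X] (RatFunc ℂ) b.denom :=
    (RatFunc.num_div_denom b).symm
  have h1 : b.num ^ 2 * F = b.denom ^ 2 * Q := by
    apply RatFunc.algebraMap_injective ℂ
    rw [map_mul, map_mul, map_pow, map_pow, ← h]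
    have h2 : algebraMap ℂ[X] (RatFunc ℂ) b.num = b * algebraMap ℂ[X] (RatFunc ℂ) b.denom := by
      rw [eq_div_iff hd] at hb
      exact hb.symm
    rw [h2]; ring
  have hc : IsCoprime (b.denom ^ 2) (b.num ^ 2) := (b.isCoprime_num_denom.symm).pow
  have h3 : b.denom ^ 2 ∣ F := by
    refine hc.dvd_of_dvd_mul_left ?_
    exact ⟨Q, h1⟩
  have h4 : IsUnit b.denom := hF _ (by rwa [← pow_two])
  obtain ⟨c, hc, hc'⟩ := Polynomial.isUnit_iff.mp h4
  refine ⟨C c⁻¹ * b.num, ?_⟩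
  have hc0 : c ≠ 0 := hc.ne_zero
  rw [map_mul, eq_comm]
  nth_rewrite 2 [hb]
  rw [eq_div_iff hd, ← hc', mul_right_comm, ← map_mul, ← C_mul, inv_mul_cancel₀ hc0]
  simp

/-- There is an automorphism moving `y`. -/
theorem exists_conj (hBAS : ST_BAS) {ν : ℕ} {D : Pell ν} (T : Tower D) :
    ∃ σ : Om ≃ₐ[RatFunc ℂ] Om, σ T.y = - T.y := by
  obtain ⟨-, hy, -, hind⟩ := hBAS ν D T
  have h1 : ∀ c : RatFunc ℂ, T.y ≠ algebraMap (RatFunc ℂ) Om c := by
    intro c hc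
    have := (linearIndependent_iff'.mp hind) {Finset.univ, ∅}
      (fun s => if s = Finset.univ then 1 else -c) (by
        rw [Finset.sum_pair (by decide)]
        simp only [if_true, if_neg (show (∅ : Finset (Fin 12)) ≠ Finset.univ by decide)]
        rw [one_smul, neg_smul, show T.rr ∅ = 1 from Finset.prod_empty,
          show T.rr Finset.univ = T.y from rfl, hc, Algebra.smul_def, mul_one]
        ring) Finset.univ (by simp)
    simp at this
  have h2 : ∃ σ : Om ≃ₐ[RatFunc ℂ] Om, σ T.y ≠ T.y := by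
    by_contra hcon
    push Not at hcon
    have h3 := (InfiniteGalois.mem_bot_iff_fixed (k := RatFunc ℂ) T.y).mpr hcon
    obtain ⟨c, hc⟩ := IntermediateField.mem_bot.mp h3
    exact h1 c hc.symm
  obtain ⟨σ, hσ⟩ := h2
  refine ⟨σ, ?_⟩
  have h4 : σ T.y ^ 2 = T.y ^ 2 := by
    rw [← map_pow, hy, aeval_tau_eq, AlgEquiv.commutes]
  exact (sq_eq_sq_iff_eq_or_eq_neg.mp h4).resolve_left hσ

theorem st_WH (hBAS : ST_BAS) : ST_WH := by
  intro ν D T m a b h
  obtain ⟨σ, hσ⟩ := exists_conj hBAS T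
  obtain ⟨-, hy, -, -⟩ := hBAS ν D T
  have h1 := W_gal σ h
  rw [map_add, map_mul, AlgEquiv.commutes, AlgEquiv.commutes, hσ] at h1
  have ha : algebraMap (RatFunc ℂ) Om a ∈ W (2 * m) := by
    have h2 := W_smul ((1 : ℂ) / 2) (W_add h h1)
    have e : ((1 : ℂ) / 2) • (algebraMap (RatFunc ℂ) Om a + algebraMap (RatFunc ℂ) Om b * T.y +
        (algebraMap (RatFunc ℂ) Om a + algebraMap (RatFunc ℂ) Om b * -T.y)) =
        algebraMap (RatFunc ℂ) Om a := by
      rw [mul_neg]; module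
    rwa [e] at h2
  have hb : algebraMap (RatFunc ℂ) Om b * T.y ∈ W (2 * m) := by
    have h2 := W_add h (W_smul (-1 : ℂ) ha)
    have e : algebraMap (RatFunc ℂ) Om a + algebraMap (RatFunc ℂ) Om b * T.y +
        (-1 : ℂ) • algebraMap (RatFunc ℂ) Om a = algebraMap (RatFunc ℂ) Om b * T.y := by module
    rwa [e] at h2
  obtain ⟨P, hP, hPd⟩ := W_rat ha
  have hb2 := W_mul hb hb
  have e : algebraMap (RatFunc ℂ) Om b * T.y * (algebraMap (RatFunc ℂ) Om b * T.y) =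
      algebraMap (RatFunc ℂ) Om
        (b ^ 2 * algebraMap ℂ[X] (RatFunc ℂ) ((D.f1 * D.f2).comp (X ^ 3))) := by
    rw [map_mul, map_pow, ← aeval_tau_eq, ← hy]; ring
  rw [e] at hb2
  obtain ⟨Q1, hQ1, hQ1d⟩ := W_rat hb2
  obtain ⟨Q, hQ⟩ := rat_of_sq (f3_squarefree D) hQ1
  refine ⟨P, Q, hP, hQ, by omega, ?_⟩
  by_cases hQ0 : Q = 0
  · exact Or.inl hQ0
  right
  have h3 : Q ^ 2 * (D.f1 * D.f2).comp (X ^ 3) = Q1 := by
    apply RatFunc.algebraMap_injective ℂ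
    rw [map_mul, map_pow, ← hQ, hQ1]
  have h4 : Q1.natDegree = 2 * Q.natDegree + 12 := by
    rw [← h3, natDegree_mul (pow_ne_zero _ hQ0) (f3_squarefree D).ne_zero, natDegree_pow,
      f3_natDegree]
  omega

end Pool.Agent.Helper67.RG
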