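import Pool.Agent.Helper67.RG.Final
import Pool.Agent.Helper67.RG.THMA
import Pool.Agent.Helper67.RG.PAIR
import Pool.Agent.Helper67.RG.LIFT
import Pool.Agent.Helper67.RG.WH
import Pool.Agent.Helper67.RG.FG
import Pool.Agent.Helper67.RG.FIN
import Pool.Agent.Helper17.RG.RANK
import Pool.Agent.Helper18.RG.KER
import Pool.Agent.Helper18.RG.QREL
import Pool.Agent.Helper26.RG.EMB
import Pool.Agent.Helper27.RG.PELL
import Pool.Agent.Helper27.RG.SPLIT
import Pool.Agent.Helper27.RG.NORM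
import Pool.Agent.Helper34.RG.HALF
import Pool.Agent.Helper31.RG.SEC
import Pool.Agent.Helper41.RG.EXT
import Pool.Agent.Helper41.RG.INJ
import Pool.Agent.Helper41.RG.KRULL
import Pool.Agent.Helper41.RG.SURJ
import Pool.Agent.Helper49.RG.PTS
import Pool.Agent.Helper49.RG.GOOD
import Pool.Agent.Helper55.RG.EX
import Pool.Agent.Helper55.RG.BAS
import Pool.Agent.Helper56.RG.SAT
import Pool.Agent.Helper56.RG.STEP
import Pool.Agent.Helper57.RG.LOW
import Pool.Agent.Helper58.RG.Comp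
import Pool.Agent.Helper59.RG.CORE
import Pool.Agent.Helper63.RG.UNIT
import Pool.Agent.Helper77.RG.REL
import Pool.Agent.Helper91.RG.HILB
import Pool.Agent.Helper91.RG.GRAD
import Pool.Agent.Helper91.RG.KILL
import Pool.Agent.Helper96.RG.DNU
import Pool.Agent.Helper96.RG.FRAC
import Pool.Agent.Helper96.RG.IRR

/-!
# Assembly of all modules
-/

namespace Pool.Agent.Helper67.RG

theorem all_PELL : ST_PELL :=
  Pool.Agent.Helper27.RG.st_PELL Pool.Agent.Helper34.RG.st_HALF Pool.Agent.Helper63.RG.st_UNIT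
    Pool.Agent.Helper27.RG.st_SPLIT

theorem all_BAS : ST_BAS := Pool.Agent.Helper55.RG.st_BAS

theorem all_EX : ST_EX := Pool.Agent.Helper55.RG.st_EX

theorem all_WH : ST_WH := st_WH all_BAS

theorem all_COMP : ST_COMP := Pool.Agent.Helper58.RG.st_COMP all_EX all_BAS st_KILL st_W

theorem all_IND : ST_IND := Pool.Agent.Helper58.RG.st_IND all_EX all_BAS st_KILL

theorem all_LOW : ST_LOW :=
  Pool.Agent.Helper57.RG.st_LOW all_EX all_BAS st_KILL st_W all_WH all_COMP

theorem all_NORM : ST_NORM := Pool.Agent.Helper27.RG.st_NORM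

theorem all_PAIR : ST_PAIR :=
  st_PAIR all_LOW (Pool.Agent.Helper18.RG.st_QREL all_BAS) (Pool.Agent.Helper18.RG.st_KER all_BAS)
    (st_GRAD st_KILL) all_NORM (st_FT' st_FIN) (st_FD' st_FIN) (st_GEN' st_FIN)
    (Pool.Agent.Helper49.RG.st_GOOD all_NORM)
    st_HILB (st_DNU all_IND (st_FD' st_FIN)) Pool.Agent.Helper59.RG.st_CORE (st_IRR all_IND) st_FRAC

theorem all_REG : ST_REG := st_REG st_FLAT

theorem all_SAT : ST_SAT := Pool.Agent.Helper56.RG.st_SAT st_FLAT all_REG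

theorem all_SEC : ST_SEC :=
  Pool.Agent.Helper31.RG.st_SEC Pool.Agent.Helper17.RG.st_RANK Pool.Agent.Helper17.RG.st_SEMI

theorem all_STEP : ST_STEP := Pool.Agent.Helper56.RG.st_STEP st_FLAT all_REG all_SAT

theorem all_THMA : ST_THMA :=
  st_THMA all_SEC (Pool.Agent.Helper77.RG.st_REL Pool.Agent.Helper17.RG.st_RANK)
    Pool.Agent.Helper41.RG.st_KRULL
    (st_LIFT all_STEP) (Pool.Agent.Helper49.RG.st_PTS Pool.Agent.Helper41.RG.st_EXT
      Pool.Agent.Helper41.RG.st_INF) Pool.Agent.Helper41.RG.st_INJ Pool.Agent.Helper26.RG.st_EMB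
    Pool.Agent.Helper41.RG.st_SURJ

end Pool.Agent.Helper67.RG
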