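import Pool.Agent.Helper67.RG.GBasic

/-!
# Sanity check: families of pairs are stable under base change
-/

namespace Pool.Agent.Helper67.RG

open TensorProduct

variable {g d : ℕ} {A : Type} [CommRing A] [Algebra ℂ A]

/-- `F.sp b` as a homomorphism of `A`-algebras. -/
def Family.spA (F : Family g d A) (b : A →ₐ[ℂ] ℂ) :
    letI : Algebra A (F.fib b).R := ((algebraMap ℂ (F.fib b).R).comp (b : A →+* ℂ)).toAlgebra
    F.R →ₐ[A] (F.fib b).R :=
  letI : Algebra A (F.fib b).R := ((algebraMap ℂ (F.fib b).R).comp (b : A →+* ℂ)).toAlgebra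
  { F.sp b with commutes' := F.sp_alg b }

theorem exists_baseChange (F : Family g d A) {A' : Type} [CommRing A'] [Algebra ℂ A']
    (φ : A →ₐ[ℂ] A') :
    ∃ F' : Family g d A', ∀ b' : A' →ₐ[ℂ] ℂ, (F'.fib b').Iso (F.fib (b'.comp φ)) := by
  classical
  let _ : Algebra A A' := φ.toAlgebra
  have hφ : ∀ a, algebraMap A A' a = φ a := fun _ => rfl
  -- the specialization maps
  have hsp : ∀ b' : A' →ₐ[ℂ] ℂ, ∃ s : (A' ⊗[A] F.R) →+* (F.fib (b'.comp φ)).R,
      ∀ a x, s (a ⊗ₜ x) = algebraMap ℂ _ (b' a) * F.sp (b'.comp φ) x := by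
    intro b'
    let _ : Algebra A (F.fib (b'.comp φ)).R :=
      ((algebraMap ℂ (F.fib (b'.comp φ)).R).comp ((b'.comp φ : A →ₐ[ℂ] ℂ) : A →+* ℂ)).toAlgebra
    let f : A' →ₐ[A] (F.fib (b'.comp φ)).R :=
      { (algebraMap ℂ (F.fib (b'.comp φ)).R).comp (b' : A' →+* ℂ) with
        commutes' := fun a => rfl }
    refine ⟨(Algebra.TensorProduct.productMap f (F.spA (b'.comp φ)) : _ →+* _), fun a x => ?_⟩
    exact Algebra.TensorProduct.productMap_apply_tmul f (F.spA (b'.comp φ)) a x
  choose s hs using hsp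
  have hgr : ∀ (b' : A' →ₐ[ℂ] ℂ) (n : ℕ) (x : A' ⊗[A] F.R), x ∈ (F.gr n).baseChange A' →
      s b' x ∈ (F.fib (b'.comp φ)).gr n := by
    intro b' n x hx
    rw [Submodule.baseChange_eq_span] at hx
    refine Submodule.span_induction (p := fun x _ => s b' x ∈ (F.fib (b'.comp φ)).gr n)
      ?_ ?_ ?_ ?_ hx
    · rintro _ ⟨x, hx, rfl⟩
      show s b' ((1 : A') ⊗ₜ x) ∈ _
      rw [hs, map_one, map_one, one_mul]
      exact F.sp_gr _ _ _ hx
    · rw [map_zero]; exact Submodule.zero_mem _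
    · intro x y _ _ hx hy
      rw [map_add]; exact Submodule.add_mem _ hx hy
    · intro a x _ hx
      have : s b' (a • x) = (b' a) • s b' x := by
        rw [Algebra.smul_def, map_mul, Algebra.smul_def]
        congr 1
        show s b' (a ⊗ₜ 1) = _
        rw [hs, map_one, mul_one]
      rw [this]
      exact Submodule.smul_mem _ _ hx
  have hred : ∀ (b' : A' →ₐ[ℂ] ℂ) (n : ℕ) (x : A' ⊗[A] F.R), x ∈ (F.gr n).baseChange A' →
      ∃ z ∈ F.gr n, x - 1 ⊗ₜ z ∈ RingHom.ker b' • (F.gr n).baseChange A' := by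
    intro b' n x hx
    rw [Submodule.baseChange_eq_span] at hx
    refine Submodule.span_induction (p := fun x _ => ∃ z ∈ F.gr n,
      x - 1 ⊗ₜ z ∈ RingHom.ker b' • (F.gr n).baseChange A') ?_ ?_ ?_ ?_ hx
    · rintro _ ⟨x, hx, rfl⟩
      exact ⟨x, hx, by
        show (1 : A') ⊗ₜ x - 1 ⊗ₜ x ∈ _
        rw [sub_self]; exact Submodule.zero_mem _⟩
    · exact ⟨0, Submodule.zero_mem _, by simp⟩
    · rintro x y _ _ ⟨z, hz, h⟩ ⟨w, hw, h'⟩
      refine ⟨z + w, Submodule.add_mem _ hz hw, ?_⟩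
      have : x + y - 1 ⊗ₜ (z + w) = (x - 1 ⊗ₜ z) + (y - 1 ⊗ₜ w) := by
        rw [tmul_add]; ring
      rw [this]
      exact Submodule.add_mem _ h h'
    · rintro a x hx' ⟨z, hz, h⟩
      refine ⟨algebraMap ℂ A (b' a) • z, Submodule.smul_mem _ _ hz, ?_⟩
      have e : a • x - 1 ⊗ₜ (algebraMap ℂ A (b' a) • z) =
          a • (x - 1 ⊗ₜ z) + (a - algebraMap ℂ A' (b' a)) • (1 ⊗ₜ z) := by
        have e1 : (1 : A') ⊗ₜ[A] (algebraMap ℂ A (b' a) • z) =
            (algebraMap ℂ A' (b' a)) • ((1 : A') ⊗ₜ[A] z) := by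
          rw [← smul_tmul, Algebra.smul_def, mul_one, smul_tmul', smul_eq_mul, mul_one, hφ,
            AlgHom.commutes]
        rw [e1, smul_sub, sub_smul]; abel
      rw [e]
      refine Submodule.add_mem _ (Submodule.smul_mem _ _ h) (Submodule.smul_mem_smul ?_ ?_)
      · rw [RingHom.mem_ker, map_sub]
        simp
      · exact Submodule.tmul_mem_baseChange_of_mem _ hz
  refine ⟨{
    R := A' ⊗[A] F.R
    gr := fun n => (F.gr n).baseChange A'
    grd := GradedAlgebra.baseChange _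
    ft := inferInstance
    n0 := F.n0
    fin := fun n hn => ?_
    proj := fun n hn => ?_
    fib := fun b' => F.fib (b'.comp φ)
    sp := s
    sp_alg := fun b' a => ?_
    sp_gr := hgr
    sp_surj := fun b' n hn y hy => ?_
    sp_ker := fun b' n hn x hx h0 => ?_ }, fun b' => ⟨AlgEquiv.refl, fun _ _ => Iff.rfl⟩⟩
  · have := F.fin n hn
    exact Module.Finite.of_surjective _ (Submodule.toBaseChange_surjective A' (F.gr n))
  · have := F.fin n hn
    have := F.proj n hn
    have hinj : Function.Injective (Submodule.toBaseChange A' (F.gr n)) := by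
      let π : F.R →ₗ[A] F.gr n :=
        (DirectSum.component A ℕ (fun i => F.gr i) n).comp
          (DirectSum.decomposeLinearEquiv F.gr).toLinearMap
      have hπ : π ∘ₗ (F.gr n).subtype = LinearMap.id := by
        ext x
        simp [π]
      have h1 : ∀ t, (π.baseChange A') (Submodule.toBaseChange A' (F.gr n) t) = t := by
        intro t
        have h2 : ((Submodule.toBaseChange A' (F.gr n) t : (F.gr n).baseChange A') :
            A' ⊗[A] F.R) = ((F.gr n).subtype.baseChange A') t := rfl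
        rw [h2, ← LinearMap.comp_apply, ← LinearMap.baseChange_comp, hπ,
          LinearMap.baseChange_id, LinearMap.id_apply]
      intro t t' h
      rw [← h1 t, ← h1 t', h]
    exact Module.Projective.of_equiv (LinearEquiv.ofBijective _
      ⟨hinj, Submodule.toBaseChange_surjective A' (F.gr n)⟩)
  · show s b' (a ⊗ₜ 1) = _
    rw [hs, map_one, mul_one]
  · obtain ⟨x, hx, rfl⟩ := F.sp_surj (b'.comp φ) n hn y hy
    exact ⟨1 ⊗ₜ x, Submodule.tmul_mem_baseChange_of_mem _ hx, by
      rw [hs, map_one, map_one, one_mul]⟩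
  · obtain ⟨z, hz, h⟩ := hred b' n x hx
    have h1 : s b' (x - 1 ⊗ₜ z) = 0 := by
      refine Submodule.smul_induction_on h (fun a ha w _ => ?_) (fun z z' h h' => ?_)
      · rw [Algebra.smul_def, map_mul]
        have : s b' (algebraMap A' (A' ⊗[A] F.R) a) = 0 := by
          show s b' (a ⊗ₜ 1) = _
          rw [hs, show b' a = 0 from ha, map_zero, zero_mul]
        rw [this, zero_mul]
      · rw [map_add, h, h', add_zero]
    have h2 : F.sp (b'.comp φ) z = 0 := by
      rw [map_sub, h0, zero_sub, neg_eq_zero, hs, map_one, map_one, one_mul] at h1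
      exact h1
    have h3 := F.sp_ker (b'.comp φ) n hn z hz h2
    have h4 : (1 : A') ⊗ₜ[A] z ∈ RingHom.ker b' • (F.gr n).baseChange A' := by
      refine Submodule.smul_induction_on h3 (fun a ha w hw => ?_) (fun z z' h h' => ?_)
      · have e1 : (1 : A') ⊗ₜ[A] (a • w) = (φ a) • ((1 : A') ⊗ₜ[A] w) := by
          rw [← smul_tmul, Algebra.smul_def, mul_one, smul_tmul', smul_eq_mul, mul_one, hφ]
        rw [e1]
        exact Submodule.smul_mem_smul ha (Submodule.tmul_mem_baseChange_of_mem _ hw)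
      · rw [tmul_add]; exact Submodule.add_mem _ h h'
    have : x = (x - 1 ⊗ₜ z) + 1 ⊗ₜ z := by ring
    rw [this]
    exact Submodule.add_mem _ h h4

end Pool.Agent.Helper67.RG
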