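import Mathlib

/-!
# MP_d0789b_ag (the rigid curves conjecture): the moduli problem

Everything is over `ℂ`.  A pair `(C, L)` with `C` a smooth projective irreducible curve of genus `g`
and `L` a line bundle of degree `d ≥ 1` is the same thing as its section ring `⨁ₙ H⁰(C, Lⁿ)`:
a graded normal domain of finite type over `ℂ` with `R₀ = ℂ` and `dim Rₙ = n d + 1 - g` for large `n`.
-/

namespace Pool.Agent.Helper67.RG

/-- A pair `(C, L)`: `C` a smooth projective irreducible curve over `ℂ` of genus `g`, `L` a line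
bundle of degree `d` (`d ≥ 1`), given by its section ring. -/
structure Pair (g d : ℕ) where
  R : Type
  [ring : CommRing R]
  [dom : IsDomain R]
  [alg : Algebra ℂ R]
  gr : ℕ → Submodule ℂ R
  [grd : GradedAlgebra gr]
  [ft : Algebra.FiniteType ℂ R]
  [nor : IsIntegrallyClosed R]
  zero : ∀ x ∈ gr 0, ∃ c : ℂ, algebraMap ℂ R c = x
  hilb : ∃ N : ℕ, ∀ n : ℕ, N ≤ n → (Module.finrank ℂ (gr n) : ℤ) = n * d + 1 - g

attribute [instance] Pair.ring Pair.dom Pair.alg Pair.grd Pair.ft Pair.nor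

/-- Isomorphism of pairs: an isomorphism of graded `ℂ`-algebras of their section rings. -/
def Pair.Iso {g d : ℕ} (X Y : Pair g d) : Prop :=
  ∃ e : X.R ≃ₐ[ℂ] Y.R, ∀ (n : ℕ) (x : X.R), x ∈ X.gr n ↔ e x ∈ Y.gr n

/-- The number of sections `h⁰(C, L)`. -/
noncomputable def Pair.h0 {g d : ℕ} (X : Pair g d) : ℕ := Module.finrank ℂ (X.gr 1)

/-- A family of pairs over an affine scheme `Spec A`: a graded `A`-algebra of finite type,
finite projective over `A` in degrees `≥ n0`, which specializes at every closed point `b` in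
degrees `≥ n0` to the section ring of the pair `fib b`. -/
structure Family (g d : ℕ) (A : Type) [CommRing A] [Algebra ℂ A] where
  R : Type
  [ring : CommRing R]
  [alg : Algebra A R]
  gr : ℕ → Submodule A R
  [grd : GradedAlgebra gr]
  [ft : Algebra.FiniteType A R]
  n0 : ℕ
  fin : ∀ n, n0 ≤ n → Module.Finite A (gr n)
  proj : ∀ n, n0 ≤ n → Module.Projective A (gr n)
  fib : (A →ₐ[ℂ] ℂ) → Pair g d
  sp : ∀ b : A →ₐ[ℂ] ℂ, R →+* (fib b).R
  sp_alg : ∀ (b : A →ₐ[ℂ] ℂ) (a : A), sp b (algebraMap A R a) = algebraMap ℂ (fib b).R (b a)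
  sp_gr : ∀ (b : A →ₐ[ℂ] ℂ) (n : ℕ) (x : R), x ∈ gr n → sp b x ∈ (fib b).gr n
  sp_surj : ∀ (b : A →ₐ[ℂ] ℂ) (n : ℕ), n0 ≤ n → ∀ y ∈ (fib b).gr n, ∃ x ∈ gr n, sp b x = y
  sp_ker : ∀ (b : A →ₐ[ℂ] ℂ) (n : ℕ), n0 ≤ n → ∀ x ∈ gr n, sp b x = 0 →
    x ∈ RingHom.ker b • gr n

attribute [instance] Family.ring Family.alg Family.grd Family.ft

/-- The local dimension at `X` of the moduli space `𝒲^r_{d,g}` of pairs with `h⁰ ≥ r + 1` is at
least `N`: there is a family of such pairs over an affine variety `B = Spec A` which passes through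
`X` at a point `b₀`, in which `X` occurs only finitely often, and `dim_{b₀} B ≥ N`. -/
def DimGE (r : ℕ) {g d : ℕ} (X : Pair g d) (N : ℕ) : Prop :=
  ∃ (A : Type) (_ : CommRing A) (_ : IsDomain A) (_ : Algebra ℂ A) (_ : Algebra.FiniteType ℂ A)
    (F : Family g d A) (b0 : A →ₐ[ℂ] ℂ),
    (∀ b, r + 1 ≤ (F.fib b).h0) ∧ (F.fib b0).Iso X ∧ {b | (F.fib b).Iso X}.Finite ∧
      (N : ℕ∞) ≤ (RingHom.ker b0).height

/-- The conjecture Q1: for every `r` there is `C > 0` such that, whenever `g - d + r ≥ 2`, the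
moduli space `𝒲^r_{d,g}` has local dimension at least `C g` at each of its points; that is, all its
irreducible components have dimension at least `C g`. -/
def RigidCurvesConjecture : Prop :=
  ∀ r : ℕ, ∃ C : ℝ, 0 < C ∧ ∀ g d : ℕ, 2 ≤ g → 1 ≤ d → d + 2 ≤ g + r →
    ∀ X : Pair g d, r + 1 ≤ X.h0 → ∃ N : ℕ, C * g ≤ N ∧ DimGE r X N

end Pool.Agent.Helper67.RG
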