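import Pool.Agent.Helper67.RG.TowerB

/-!
# Statements of the modules about the special pairs
-/

namespace Pool.Agent.Helper67.RG

open Polynomial

/-- The ten quadratic relations `x_{j+2}² = α x_0² + β x_1²` between the `x i`. -/
noncomputable def qq {ν : ℕ} (D : Pell ν) (j : Fin 10) (p : J) : ℂ :=
  if p.1 = (Fin.natAdd 2 j, Fin.natAdd 2 j) then 1
  else if p.1 = (0, 0) then
    -((D.lam 1 - D.lam (Fin.natAdd 2 j)) / (D.lam 1 - D.lam 0))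
  else if p.1 = (1, 1) then
    -((D.lam (Fin.natAdd 2 j) - D.lam 0) / (D.lam 1 - D.lam 0))
  else 0

/-! ### E1: the key lemma -/

def ST_EX : Prop :=
  ∀ (ν : ℕ) (D : Pell ν) (T : Tower D) (a b : RatFunc ℂ) (P Q : ℂ[X]) (i : ℕ), 0 < i → i < ν →
    (algebraMap (RatFunc ℂ) Om a + algebraMap (RatFunc ℂ) Om b * T.y) ^ ν * T.G ^ (2 * i) =
      aeval tau P + aeval tau Q * T.y →
    P.natDegree ≤ 2 * ν → (Q = 0 ∨ Q.natDegree + 6 ≤ 2 * ν) → a = 0 ∧ b = 0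

/-! ### E2: basic facts -/

/-- Facts about the tower: `G G' = 1`, `y²`, `G²`, and the `r_s` are independent over `ℂ(τ)`. -/
def ST_BAS : Prop :=
  ∀ (ν : ℕ) (D : Pell ν) (T : Tower D),
    T.G * T.G' = 1 ∧
    T.y ^ 2 = aeval tau ((D.f1 * D.f2).comp (X ^ 3)) ∧
    T.G ^ 2 = aeval (tau ^ 3) (D.f2 * D.p ^ 2 + D.f1 * D.q ^ 2) +
      aeval (tau ^ 3) (2 * D.p * D.q) * T.y ∧
    LinearIndependent (RatFunc ℂ) (fun s : Finset (Fin 12) => T.rr s)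

/-- Facts about the spaces `W m`. -/
def ST_W : Prop :=
  (∀ (m : ℕ) (a b : Om), a ∈ W m → b ∈ W m → a + b ∈ W m) ∧
  (∀ (m n : ℕ) (a b : Om), a ∈ W m → b ∈ W n → a * b ∈ W (m + n)) ∧
  (∀ (m : ℕ) (c : ℂ) (a : Om), a ∈ W m → c • a ∈ W m) ∧
  (∀ (m k : ℕ) (a : Om), 1 ≤ k → a ^ k ∈ W (m * k) → a ∈ W m) ∧
  (∀ (σ : Om ≃ₐ[RatFunc ℂ] Om) (m : ℕ) (a : Om), a ∈ W m → σ a ∈ W m) ∧
  (∀ (m : ℕ) (c : RatFunc ℂ), algebraMap (RatFunc ℂ) Om c ∈ W m →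
    ∃ P : ℂ[X], c = algebraMap ℂ[X] (RatFunc ℂ) P ∧ 2 * P.natDegree ≤ m) ∧
  (∀ (P : ℂ[X]) (m : ℕ), 2 * P.natDegree ≤ m → aeval tau P ∈ W m)

def ST_WH : Prop :=
  ∀ (ν : ℕ) (D : Pell ν) (T : Tower D) (m : ℕ) (a b : RatFunc ℂ),
    algebraMap (RatFunc ℂ) Om a + algebraMap (RatFunc ℂ) Om b * T.y ∈ W (2 * m) →
    ∃ P Q : ℂ[X], a = algebraMap ℂ[X] (RatFunc ℂ) P ∧ b = algebraMap ℂ[X] (RatFunc ℂ) Q ∧
      P.natDegree ≤ m ∧ (Q = 0 ∨ Q.natDegree + 6 ≤ m)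

/-! ### E3: eigenvector components -/

def ST_KILL : Prop :=
  ∀ (V : Type) [AddCommGroup V] [Module ℂ V] (U : Submodule ℂ V) (Γ : Set (V →ₗ[ℂ] V))
    (_ : ∀ σ ∈ Γ, ∀ v ∈ U, σ v ∈ U) (ι : Type) (s : Finset ι) (z : ι → V)
    (χ : ι → (V →ₗ[ℂ] V) → ℂ) (_ : ∀ i ∈ s, ∀ σ ∈ Γ, σ (z i) = χ i σ • z i)
    (_ : ∀ i ∈ s, ∀ j ∈ s, i ≠ j → ∃ σ ∈ Γ, χ i σ ≠ χ j σ) (_ : ∑ i ∈ s, z i ∈ U),
    ∀ i ∈ s, z i ∈ U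

/-! ### E4: independence of the `r_s w^i`, components of elements of `W m` -/

def ST_IND : Prop :=
  ∀ (ν : ℕ) (D : Pell ν) (T : Tower D),
    LinearIndependent (RatFunc ℂ)
      (fun p : Finset (Fin 12) × Fin ν => T.rr p.1 * T.w ^ (p.2 : ℕ))

def ST_COMP : Prop :=
  ∀ (ν : ℕ) (D : Pell ν) (T : Tower D) (m : ℕ) (c : Finset (Fin 12) → Fin ν → RatFunc ℂ),
    ∑ s, ∑ i, c s i • (T.rr s * T.w ^ (i : ℕ)) ∈ W m →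
    ∀ s i, (c s i • T.rr s + c sᶜ i • T.rr sᶜ) * T.w ^ (i : ℕ) ∈ W m

/-! ### E5: the pieces of degree `0, 1, 2` -/

def ST_LOW : Prop :=
  ∀ (ν : ℕ) (D : Pell ν) (T : Tower D),
    (∀ z ∈ W 0, z ∈ T.E 0 → ∃ c : ℂ, z = algebraMap ℂ Om c) ∧
    (∀ z ∈ W 1, z ∈ T.E 1 → z ∈ Submodule.span ℂ (Set.range T.r)) ∧
    (∀ z ∈ W 2, z ∈ T.E 2 →
      z ∈ Submodule.span ℂ (Set.range fun p : J => T.r p.1.1 * T.r p.1.2))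

/-! ### E6: relations between the `x i` -/

def ST_QREL : Prop :=
  ∀ (ν : ℕ) (D : Pell ν) (T : Tower D),
    LinearIndependent ℂ T.x ∧ LinearIndependent ℂ (qq D) ∧
    ∀ c : J → ℂ, MvPolynomial.aeval T.x (quad c) = 0 ↔
      c ∈ Submodule.span ℂ (Set.range (qq D))

def ST_KER : Prop :=
  ∀ (ν : ℕ) (D : Pell ν) (T : Tower D) (P : MvPolynomial (Fin 12) ℂ),
    MvPolynomial.aeval T.x P = 0 → P ∈ Ideal.span (Set.range fun j => quad (qq D j))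

/-! ### E7-E10: ring-theoretic properties of `B` -/

def ST_GRAD : Prop :=
  ∀ (ν : ℕ) (D : Pell ν) (T : Tower D), Nonempty (GradedAlgebra T.grB)

def ST_NORM : Prop :=
  ∀ (ν : ℕ) (D : Pell ν) (T : Tower D), IsIntegrallyClosed T.B

def ST_FIN : Prop :=
  ∀ (ν : ℕ) (D : Pell ν) (T : Tower D), ∃ (K : ℕ) (b : Fin K → Om[X]), (∀ k, b k ∈ T.B) ∧
    ∀ z ∈ T.B, ∃ a : Fin K → Om[X], (∀ k, a k ∈ A0) ∧ z = ∑ k, a k * b k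

def ST_FT : Prop :=
  ∀ (ν : ℕ) (D : Pell ν) (T : Tower D), Algebra.FiniteType ℂ T.B

def ST_FD : Prop :=
  ∀ (ν : ℕ) (D : Pell ν) (T : Tower D) (n : ℕ), Module.Finite ℂ (T.grB n)

def ST_GEN : Prop :=
  ∀ (ν : ℕ) (D : Pell ν) (T : Tower D), ∃ M : ℕ, ∀ m, M ≤ m → ∀ z ∈ T.grB (m + 1),
    ∃ a ∈ T.grB m, ∃ b ∈ T.grB m, z = T.x 0 * a + T.x 1 * b

def ST_GOOD : Prop :=
  ∀ (ν : ℕ) (D : Pell ν) (T : Tower D) (a c : T.B) (K : ℕ), c ≠ 0 →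
    c ∣ a * T.x 0 ^ K → c ∣ a * T.x 1 ^ K → c ∣ a

/-! ### E11, E12: the Hilbert function -/

def ST_HILB : Prop :=
  ∀ (R : Type) [CommRing R] [IsDomain R] [Algebra ℂ R] (gr : ℕ → Submodule ℂ R) [GradedAlgebra gr]
    (_ : ∀ n, Module.Finite ℂ (gr n)) (x0 x1 : R) (_ : x0 ∈ gr 1) (_ : x1 ∈ gr 1) (_ : x0 ≠ 0)
    (_ : ∀ a b : R, x1 * a = x0 * b → x0 ∣ a) (M : ℕ)
    (_ : ∀ m, M ≤ m → ∀ z ∈ gr (m + 1), ∃ a ∈ gr m, ∃ b ∈ gr m, z = x0 * a + x1 * b),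
    ∃ (d : ℕ) (c : ℤ), (∀ n, M ≤ n → (Module.finrank ℂ (gr n) : ℤ) = n * d + c) ∧
      ∀ n, Module.finrank ℂ (gr (n + 1)) ≤ Module.finrank ℂ (gr n) + d

def ST_DNU : Prop :=
  ∀ (ν : ℕ) (D : Pell ν) (T : Tower D) (M d : ℕ) (c : ℤ),
    (∀ n, M ≤ n → (Module.finrank ℂ (T.grB n) : ℤ) = n * d + c) → ν ≤ d

/-! ### E13-E15: root data -/

def ST_CORE : Prop :=
  ∀ (ν : ℕ) (D : Pell ν) (T : Tower D) (N : ℕ), ∃ (Q : RootCore T.B T.grB T.x ν N) (i0 : Q.ι)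
    (j : ℕ), Q.m i0 = 2 * j ∧ (Q.a i0 : Om[X]) = monomial (2 * j) T.w

def ST_IRR : Prop :=
  ∀ (ν : ℕ) (D : Pell ν) (T : Tower D) (j : ℕ) (a : T.B) (_ : (a : Om[X]) = monomial (2 * j) T.w)
    (s : Fin ν → MvPolynomial (Fin 12) ℂ),
    ∑ i, MvPolynomial.aeval T.x (s i) * a ^ (i : ℕ) = 0 →
    ∀ i, MvPolynomial.aeval T.x (s i) = 0

def ST_FRAC : Prop :=
  ∀ (ν : ℕ) (D : Pell ν) (T : Tower D) (j : ℕ) (a : T.B) (_ : (a : Om[X]) = monomial (2 * j) T.w)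
    (n : ℕ), ∀ c ∈ T.grB n, ∃ (e : ℕ) (p : MvPolynomial (Fin 12) ℂ)
    (s : Fin ν → MvPolynomial (Fin 12) ℂ), p.IsHomogeneous e ∧ MvPolynomial.aeval T.x p ≠ 0 ∧
    (∀ i, s i = 0 ∨ ∃ k, (s i).IsHomogeneous k ∧ k + i * (2 * j) = e + n) ∧
    MvPolynomial.aeval T.x p * c = ∑ i, MvPolynomial.aeval T.x (s i) * a ^ (i : ℕ)

/-! ### The special pairs -/

/-- Every Pell datum gives a special pair. -/
def ST_PAIR : Prop :=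
  ∀ (ν : ℕ), 100 ≤ ν → Nonempty (Pell ν) → ∃ (g d : ℕ) (X : Pair g d),
    ν ≤ d ∧ 2 * d ≤ g + 67 ∧ 12 ≤ X.h0 ∧ Nonempty (Ex X.R X.gr)

/-! ### P1-P4: existence of Pell data -/

/-- The elliptic curve `y² = x³ - x`. -/
def W0 : WeierstrassCurve.Affine ℂ := ⟨0, 0, 0, -1, 0⟩

def ST_HALF : Prop := ∀ k : ℕ, ∃ T : W0.Point, addOrderOf T = 2 ^ k

def ST_UNIT : Prop :=
  ∀ (N : ℕ), 3 ≤ N → (∃ T : W0.Point, addOrderOf T = N) → ∃ f a b : ℂ[X], f.Monic ∧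
    f.natDegree = 4 ∧ Squarefree f ∧ a ^ 2 - f * b ^ 2 = 1 ∧ a.natDegree = N ∧
    ∀ (a' b' : ℂ[X]) (c : ℂ), c ≠ 0 → a' ^ 2 - f * b' ^ 2 = C c → b' ≠ 0 → N ≤ a'.natDegree

def ST_SPLIT : Prop :=
  ∀ (ν : ℕ), 2 ≤ ν → ∀ f a b : ℂ[X], f.Monic → f.natDegree = 4 → Squarefree f →
    a ^ 2 - f * b ^ 2 = 1 → a.natDegree = 2 * ν →
    (∀ (a' b' : ℂ[X]) (c : ℂ), c ≠ 0 → a' ^ 2 - f * b' ^ 2 = C c → b' ≠ 0 →
      2 * ν ≤ a'.natDegree) →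
    ∃ f1 f2 p q : ℂ[X], f = f1 * f2 ∧ f1.Monic ∧ f2.Monic ∧ f1.natDegree = 2 ∧
      f2.natDegree = 2 ∧ f2 * p ^ 2 - f1 * q ^ 2 = 1 ∧ p.natDegree = ν - 1 ∧ q.natDegree = ν - 1

def ST_PELL : Prop := ∀ k : ℕ, 1 ≤ k → Nonempty (Pell (2 ^ k))

end Pool.Agent.Helper67.RG
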