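import Pool.Agent.Helper67.RG.Defs

/-!
# The structure `Ex` carried by the special pairs

`Ex R gr` collects the algebraic properties of the section ring of the special pairs which force
small local dimension of the moduli space.
-/

namespace Pool.Agent.Helper67.RG

open MvPolynomial

/-- The `78` pairs of indices `i ≤ j < 12`. -/
abbrev J : Type := {p : Fin 12 × Fin 12 // p.1 ≤ p.2}

/-- The quadric with coefficients `c`. -/
noncomputable def quad (c : J → ℂ) : MvPolynomial (Fin 12) ℂ :=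
  ∑ p : J, C (c p) * (X p.1.1 * X p.1.2)

/-- Root data of the `ν`-th root `w`: a system of local generators `a i` (homogeneous of degree
`m i ≥ N`) whose `ν`-th powers are polynomials in the `x j`, related to one another linearly over
the polynomials in the `x j`, with an irrelevant ideal for every `i`. -/
structure RootCore (R : Type) [CommRing R] [Algebra ℂ R] (gr : ℕ → Submodule ℂ R)
    (x : Fin 12 → R) (ν N : ℕ) where
  ι : Type
  m : ι → ℕ
  hm : ∀ i, N ≤ m i
  a : ι → R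
  ha : ∀ i, a i ∈ gr (m i)
  ha0 : ∀ i, a i ≠ 0
  P : ι → MvPolynomial (Fin 12) ℂ
  hP : ∀ i, (P i).IsHomogeneous (m i * ν)
  haP : ∀ i, a i ^ ν = aeval x (P i)
  prim : ∀ i, ∀ z : R, (z = x 0 ∨ z = x 1) → ∃ K : ℕ, z ^ K ∈ Ideal.span
    {e : R | ∃ (j : ι) (α β : ℕ) (π κ : MvPolynomial (Fin 12) ℂ), N ≤ α ∧ N ≤ β ∧
      α + m i = β + m j ∧ π.IsHomogeneous α ∧ κ.IsHomogeneous β ∧
      aeval x π * a i = aeval x κ * a j ∧ e = aeval x π * aeval x (P j)}

/-- Root data together with a distinguished root `a i0` which has degree `ν` over the polynomials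
in the `x j` and generates the fraction field. -/
structure RootData (R : Type) [CommRing R] [Algebra ℂ R] (gr : ℕ → Submodule ℂ R)
    (x : Fin 12 → R) (ν N : ℕ) extends RootCore R gr x ν N where
  i0 : ι
  irr : ∀ s : Fin ν → MvPolynomial (Fin 12) ℂ,
    ∑ i, aeval x (s i) * a i0 ^ (i : ℕ) = 0 → ∀ i, aeval x (s i) = 0
  frac : ∀ (n : ℕ), ∀ c ∈ gr n, ∃ (e : ℕ) (p : MvPolynomial (Fin 12) ℂ)
    (s : Fin ν → MvPolynomial (Fin 12) ℂ), p.IsHomogeneous e ∧ aeval x p ≠ 0 ∧
    (∀ i, s i = 0 ∨ ∃ k, (s i).IsHomogeneous k ∧ k + i * m i0 = e + n) ∧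
    aeval x p * c = ∑ i, aeval x (s i) * a i0 ^ (i : ℕ)

/-- The properties of the special section rings used in the upper bound. -/
structure Ex (R : Type) [CommRing R] [Algebra ℂ R] (gr : ℕ → Submodule ℂ R) where
  ν : ℕ
  hν : 2 ≤ ν
  x : Fin 12 → R
  x_mem : ∀ i, x i ∈ gr 1
  x_ind : LinearIndependent ℂ x
  x_span : ∀ z ∈ gr 1, z ∈ Submodule.span ℂ (Set.range x)
  span2 : ∀ z ∈ gr 2, z ∈ Submodule.span ℂ (Set.range fun p : J => x p.1.1 * x p.1.2)
  q : Fin 10 → J → ℂ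
  q_ind : LinearIndependent ℂ q
  q_rel : ∀ c : J → ℂ, aeval x (quad c) = 0 ↔ c ∈ Submodule.span ℂ (Set.range q)
  ker : ∀ P : MvPolynomial (Fin 12) ℂ, aeval x P = 0 →
    P ∈ Ideal.span (Set.range fun j => quad (q j))
  good : ∀ (a c : R) (K : ℕ), c ≠ 0 → c ∣ a * x 0 ^ K → c ∣ a * x 1 ^ K → c ∣ a
  diag : ∀ i, ∃ α β : ℂ, x i ^ 2 = α • x 0 ^ 2 + β • x 1 ^ 2
  integral : ∀ c : R, IsIntegral (Algebra.adjoin ℂ (Set.range x)) c
  roots : ∀ N : ℕ, Nonempty (RootData R gr x ν N)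

end Pool.Agent.Helper67.RG
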