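import Pool.Agent.Helper67.RG.GBasic

/-!
# Modules FLAT and REG
-/

namespace Pool.Agent.Helper67.RG

/-- A linear functional maps `I • ⊤` into `I`. -/
theorem functional_mem {A : Type} [CommRing A] {M : Type} [AddCommGroup M] [Module A M]
    (φ : M →ₗ[A] A) {I : Ideal A} {x : M} (hx : x ∈ I • (⊤ : Submodule A M)) : φ x ∈ I := by
  refine Submodule.smul_induction_on hx (fun a ha z _ => ?_) (fun z z' h h' => ?_)
  · rw [map_smul, smul_eq_mul]
    exact I.mul_mem_right _ ha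
  · rw [map_add]; exact I.add_mem h h'

/-- Membership in `I • ⊤` of a finite projective module is detected by coordinates. -/
theorem mem_smul_top_of_coord {A : Type} [CommRing A] {M : Type} [AddCommGroup M] [Module A M]
    {k : ℕ} (ρ : (Fin k → A) →ₗ[A] M) (ι : M →ₗ[A] (Fin k → A)) (h : ρ ∘ₗ ι = LinearMap.id)
    {I : Ideal A} {x : M} (hx : ∀ l, ι x l ∈ I) : x ∈ I • (⊤ : Submodule A M) := by
  have h1 : x = ρ (ι x) := by
    have := congrArg (fun f => f x) h
    simpa using this.symm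
  have h2 : ι x = ∑ l, (ι x l) • (Pi.single l (1 : A) : Fin k → A) := by
    ext j
    simp [Finset.sum_apply, Pi.single_apply]
  rw [h1, h2, map_sum]
  refine Submodule.sum_mem _ fun l _ => ?_
  rw [map_smul]
  exact Submodule.smul_mem_smul (hx l) trivial

theorem st_FLAT : ST_FLAT := by
  intro g d X A _ _ F b0 S n hn I ε hε hm z hz h
  have := F.fin n hn
  have := F.proj n hn
  obtain ⟨k, ρ, ι, -, -, hρι⟩ := Module.Finite.exists_comp_eq_id_of_projective A (F.gr n)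
  have h1 : ε • (⟨z, hz⟩ : F.gr n) ∈ I • (⊤ : Submodule A (F.gr n)) :=
    Submodule.mem_smul_top_iff _ _ _ |>.2 h
  have h2 : ∀ l, ι ⟨z, hz⟩ l ∈ RingHom.ker b0 := by
    intro l
    by_contra hl
    have h3 : ε * ι ⟨z, hz⟩ l ∈ I := by
      have := functional_mem ((LinearMap.proj l : (Fin k → A) →ₗ[A] A) ∘ₗ ι) h1
      rw [map_smul, smul_eq_mul] at this
      exact this
    have hl' : b0 (ι ⟨z, hz⟩ l) ≠ 0 := hl
    -- `1 - c z_l ∈ ker b0`
    have h4 : (1 - algebraMap ℂ A (b0 (ι ⟨z, hz⟩ l))⁻¹ * ι ⟨z, hz⟩ l) ∈ RingHom.ker b0 := by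
      rw [RingHom.mem_ker, map_sub, map_one, map_mul, AlgHom.commutes]
      simp [hl']
    have h5 := hm _ h4
    apply hε
    have : ε = (1 - algebraMap ℂ A (b0 (ι ⟨z, hz⟩ l))⁻¹ * ι ⟨z, hz⟩ l) * ε +
      algebraMap ℂ A (b0 (ι ⟨z, hz⟩ l))⁻¹ * (ε * ι ⟨z, hz⟩ l) := by ring
    rw [this]
    exact I.add_mem h5 (I.mul_mem_left _ h3)
  have h3 := mem_smul_top_of_coord ρ ι hρι h2
  exact at_smul_zero S le_rfl ((Submodule.mem_smul_top_iff _ _ _).1 h3)

/-- For `I` an ideal between a power of `ker b0` and `ker b0`, either `I = ker b0` or there is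
`ε ∈ ker b0 \ I` with `ker b0 * ε ⊆ I`. -/
theorem exists_eps {A : Type} [CommRing A] (m I : Ideal A) (k : ℕ) (hk : m ^ k ≤ I) (hI : I ≤ m)
    (hne : I ≠ m) : ∃ ε ∈ m, ε ∉ I ∧ ∀ a ∈ m, a * ε ∈ I := by
  classical
  have hex : ∃ k, m ^ k ≤ I := ⟨k, hk⟩
  have hj := Nat.find_spec hex
  obtain h0 | h0 : Nat.find hex = 0 ∨ 0 < Nat.find hex := Nat.eq_zero_or_pos _
  · rw [h0, pow_zero, Ideal.one_eq_top] at hj
    exact absurd (le_antisymm hI (le_top.trans hj)) hne
  · obtain h1 | h1 : Nat.find hex = 1 ∨ 1 < Nat.find hex := by omega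
    · rw [h1, pow_one] at hj
      exact absurd (le_antisymm hI hj) hne
    · obtain ⟨j, hj'⟩ : ∃ j, Nat.find hex = j + 1 := ⟨Nat.find hex - 1, by omega⟩
      have hn := Nat.find_min hex (m := j) (by omega)
      rw [SetLike.not_le_iff_exists] at hn
      obtain ⟨ε, hε, hε'⟩ := hn
      refine ⟨ε, Ideal.pow_le_self (by omega) hε, hε', fun a ha => ?_⟩
      apply hj
      rw [hj', pow_succ']
      exact Ideal.mul_mem_mul ha hε

/-- Noetherian induction along small extensions. -/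
theorem small_induction {A : Type} [CommRing A] [IsNoetherianRing A] (m : Ideal A)
    (Q : Ideal A → Prop) (h0 : Q m)
    (hs : ∀ (I : Ideal A) (k : ℕ), m ^ k ≤ I → I ≤ m → ∀ ε ∈ m, ε ∉ I →
      (∀ a ∈ m, a * ε ∈ I) → Q (I ⊔ Ideal.span {ε}) → Q I)
    (I : Ideal A) (k : ℕ) (hk : m ^ k ≤ I) (hI : I ≤ m) : Q I := by
  induction I using (wellFounded_gt (α := Ideal A)).induction with
  | _ I ih =>
    by_cases hne : I = m
    · rw [hne]; exact h0
    · obtain ⟨ε, hε, hεI, hm⟩ := exists_eps m I k hk hI hne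
      refine hs I k hk hI ε hε hεI hm (ih _ ?_ (hk.trans le_sup_left) ?_)
      · show I < I ⊔ Ideal.span {ε}
        refine lt_of_le_of_ne le_sup_left fun h => hεI ?_
        rw [h]
        exact (le_sup_right : Ideal.span {ε} ≤ _) (Ideal.mem_span_singleton_self ε)
      · exact sup_le hI ((Ideal.span_singleton_le_iff_mem _).2 hε)

/-- Elements of `(I ⊔ (ε)) • gr n`. -/
theorem mem_sup_smul {g d : ℕ} {A : Type} [CommRing A] [Algebra ℂ A] (F : Family g d A)
    {I : Ideal A} {ε : A} {n : ℕ} {z : F.R} (hz : z ∈ (I ⊔ Ideal.span {ε}) • F.gr n) :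
    ∃ z1 ∈ I • F.gr n, ∃ z2 ∈ F.gr n, z = z1 + ε • z2 := by
  rw [Submodule.sup_smul] at hz
  obtain ⟨z1, h1, z2, h2, rfl⟩ := Submodule.mem_sup.1 hz
  rw [Submodule.ideal_span_singleton_smul] at h2
  obtain ⟨z3, h3, rfl⟩ := Submodule.mem_smul_pointwise_iff_exists _ _ _ |>.1 h2
  exact ⟨z1, h1, z3, h3, rfl⟩

theorem mem_sup_smul' {g d : ℕ} {A : Type} [CommRing A] [Algebra ℂ A] (F : Family g d A)
    {I : Ideal A} {ε : A} {n : ℕ} {z1 z2 : F.R} (h1 : z1 ∈ I • F.gr n) (h2 : z2 ∈ F.gr n) :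
    z1 + ε • z2 ∈ (I ⊔ Ideal.span {ε}) • F.gr n := by
  refine Submodule.add_mem _ (Submodule.smul_mono_left le_sup_left h1) ?_
  exact Submodule.smul_mem_smul ((le_sup_right : Ideal.span {ε} ≤ _)
    (Ideal.mem_span_singleton_self ε)) h2

/-- `ε` times an element of `gr n` killed by `sp` lies in `I • gr n`. -/
theorem eps_smul_mem {g d : ℕ} {X : Pair g d} {A : Type} [CommRing A] [Algebra ℂ A]
    {F : Family g d A} {b0 : A →ₐ[ℂ] ℂ} (S : At X F b0) {I : Ideal A} {ε : A}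
    (hm : ∀ a ∈ RingHom.ker b0, a * ε ∈ I) {n : ℕ} (hn : F.n0 ≤ n) {z : F.R} (hz : z ∈ F.gr n)
    (h0 : S.sp z = 0) : ε • z ∈ I • F.gr n := by
  refine Submodule.smul_induction_on (S.ker n hn z hz h0) (fun a ha z hz => ?_)
    (fun z z' h h' => ?_)
  · rw [smul_smul, mul_comm]
    exact Submodule.smul_mem_smul (hm a ha) hz
  · rw [smul_add]; exact Submodule.add_mem _ h h'

theorem st_REG (hFLAT : ST_FLAT) : ST_REG := by
  intro g d X A _ _ _ _ F b0 S n n1 hn I k hk hI c z hc hc0 hz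
  have : IsNoetherianRing A := Algebra.FiniteType.isNoetherianRing ℂ A
  refine small_induction (RingHom.ker b0)
    (fun I => ∀ z ∈ F.gr n, c * z ∈ I • F.gr (n1 + n) → z ∈ I • F.gr n) ?_ ?_ I k hk hI z hz
  · intro z hz h
    have h1 := at_smul_zero S le_rfl h
    rw [map_mul] at h1
    exact S.ker n hn z hz ((mul_eq_zero.mp h1).resolve_left hc0)
  · intro I k hk hI ε hε hεI hm ih z hz h
    obtain ⟨z1, h1, z2, h2, rfl⟩ := mem_sup_smul F
      (ih z hz (Submodule.smul_mono_left le_sup_left h))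
    have h3 : ε • (c * z2) ∈ I • F.gr (n1 + n) := by
      have e : ε • (c * z2) = c * (z1 + ε • z2) - c * z1 := by
        rw [mul_add, mul_smul_comm]; ring
      rw [e]
      exact Submodule.sub_mem _ h (mul_smul_mem F hc h1)
    have h4 := hFLAT g d X A F b0 S (n1 + n) (by omega) I ε hεI hm (c * z2)
      (SetLike.mul_mem_graded hc h2) h3
    rw [map_mul] at h4
    exact Submodule.add_mem _ h1
      (eps_smul_mem S hm hn h2 ((mul_eq_zero.mp h4).resolve_left hc0))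

end Pool.Agent.Helper67.RG
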