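import Pool.Agent.Helper67.RG.Ex

/-!
# Statements of the modules of the general part (upper bound for the local dimension)
-/

namespace Pool.Agent.Helper67.RG

open MvPolynomial

/-- Fibre maps of an `A`-module at all closed points. -/
structure FM (A : Type) [CommRing A] [Algebra ℂ A] (P : Type) [AddCommGroup P] [Module A P] where
  V : (A →ₐ[ℂ] ℂ) → Type
  [acg : ∀ b, AddCommGroup (V b)]
  [mod : ∀ b, Module ℂ (V b)]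
  pi : ∀ b, P →+ V b
  pi_smul : ∀ (b : A →ₐ[ℂ] ℂ) (a : A) (p : P), pi b (a • p) = b a • pi b p
  surj : ∀ b, Function.Surjective (pi b)
  ker : ∀ (b : A →ₐ[ℂ] ℂ) (p : P), pi b p = 0 → p ∈ RingHom.ker b • (⊤ : Submodule A P)

attribute [instance] FM.acg FM.mod

/-- Specialization of the family at `b0` with values in a given pair `X`. -/
structure At {g d : ℕ} (X : Pair g d) {A : Type} [CommRing A] [Algebra ℂ A] (F : Family g d A)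
    (b0 : A →ₐ[ℂ] ℂ) where
  sp : F.R →+* X.R
  alg : ∀ a : A, sp (algebraMap A F.R a) = algebraMap ℂ X.R (b0 a)
  gr : ∀ (n : ℕ) (x : F.R), x ∈ F.gr n → sp x ∈ X.gr n
  surj : ∀ n, F.n0 ≤ n → ∀ y ∈ X.gr n, ∃ x ∈ F.gr n, sp x = y
  ker : ∀ n, F.n0 ≤ n → ∀ x ∈ F.gr n, sp x = 0 → x ∈ RingHom.ker b0 • F.gr n

/-- Evaluation of a polynomial over `ℂ` at elements of the total ring of a family. -/
noncomputable def ev {g d : ℕ} {A : Type} [CommRing A] [Algebra ℂ A] (F : Family g d A)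
    (y : Fin 12 → F.R) (P : MvPolynomial (Fin 12) ℂ) : F.R :=
  MvPolynomial.eval₂ ((algebraMap A F.R).comp (algebraMap ℂ A)) y P

/-- Sections of `ℒ` lifting the sections `x i` of `X` near `b0`: `x i = y i / u`. -/
structure Sec {g d : ℕ} {X : Pair g d} (E : Ex X.R X.gr) {A : Type} [CommRing A] [Algebra ℂ A]
    (F : Family g d A) (b0 : A →ₐ[ℂ] ℂ) (S : At X F b0) where
  n : ℕ
  hn : F.n0 ≤ n
  u : F.R
  hu : u ∈ F.gr n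
  y : Fin 12 → F.R
  hy : ∀ i, y i ∈ F.gr (n + 1)
  u0 : S.sp u ≠ 0
  y0 : ∀ i, S.sp (y i) = E.x i * S.sp u
  div : ∀ i, ∀ c ∈ F.gr n, ∃ c' ∈ F.gr (n + 1), y i * c = u * c'
  f : A
  hf : b0 f ≠ 0
  near : ∀ b : A →ₐ[ℂ] ℂ, b f ≠ 0 → F.sp b u ≠ 0 ∧ ∃ ξ : Fin 12 → (F.fib b).R,
    (∀ i, ξ i ∈ (F.fib b).gr 1) ∧ LinearIndependent ℂ ξ ∧ ∀ i, F.sp b (y i) = ξ i * F.sp b u
  two : ∀ b : A →ₐ[ℂ] ℂ, b f ≠ 0 → Module.Finite ℂ ((F.fib b).gr 2) ∧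
    Module.finrank ℂ ((F.fib b).gr 2) ≤ 68

/-- The sections satisfy ten quadratic relations with `780` coefficients in `A`. -/
structure Spr {g d : ℕ} {X : Pair g d} (E : Ex X.R X.gr) {A : Type} [CommRing A] [Algebra ℂ A]
    (F : Family g d A) (b0 : A →ₐ[ℂ] ℂ) (S : At X F b0) extends Sec E F b0 S where
  θ : Fin 10 → J → A
  θ0 : ∀ j p, b0 (θ j p) = E.q j p
  rel : ∀ j, ∑ p : J, algebraMap A F.R (θ j p) * (y p.1.1 * y p.1.2) = 0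

/-- The situation over a closed subvariety `V(q)` of positive dimension through `b0` over which the
ten quadratic relations are constant. -/
structure Loc {g d : ℕ} {X : Pair g d} (E : Ex X.R X.gr) {A : Type} [CommRing A] [Algebra ℂ A]
    (F : Family g d A) (b0 : A →ₐ[ℂ] ℂ) (S : At X F b0) extends Sec E F b0 S where
  q : Ideal A
  prime : q.IsPrime
  lt : q < RingHom.ker b0
  key : ∀ (l : ℕ) (P : MvPolynomial (Fin 12) ℂ), P.IsHomogeneous l → aeval E.x P = 0 →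
    ev F y P ∈ q • F.gr (l * (n + 1))

/-- Approximate roots modulo an ideal `I` of `A`. -/
def RootsMod {g d : ℕ} {X : Pair g d} {E : Ex X.R X.gr} {A : Type} [CommRing A] [Algebra ℂ A]
    {F : Family g d A} {b0 : A →ₐ[ℂ] ℂ} {S : At X F b0} (L : Loc E F b0 S) {N : ℕ}
    (D : RootData X.R X.gr E.x E.ν N) (I : Ideal A) (W : D.ι → F.R) : Prop :=
  ∀ i, W i ∈ F.gr (D.m i) ∧ S.sp (W i) = D.a i ∧
    W i ^ E.ν * L.u ^ (D.m i * E.ν) - ev F L.y (D.P i) ∈ I • F.gr (D.m i * E.ν * (L.n + 1))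

/-! ### G1: constant rank and semicontinuity -/

def ST_RANK : Prop :=
  ∀ (A : Type) [CommRing A] [IsDomain A] [Algebra ℂ A] [Algebra.FiniteType ℂ A]
    (P Q : Type) [AddCommGroup P] [Module A P] [Module.Finite A P] [Module.Projective A P]
    [AddCommGroup Q] [Module A Q] [Module.Finite A Q] [Module.Projective A Q]
    (FP : FM A P) (FQ : FM A Q) (α : P →ₗ[A] Q) (αb : ∀ b, FP.V b →ₗ[ℂ] FQ.V b)
    (_ : ∀ b p, αb b (FP.pi b p) = FQ.pi b (α p)) (b0 : A →ₐ[ℂ] ℂ) (f0 : A) (_ : b0 f0 ≠ 0)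
    (_ : ∀ b : A →ₐ[ℂ] ℂ, b f0 ≠ 0 →
      Module.finrank ℂ (LinearMap.ker (αb b0)) ≤ Module.finrank ℂ (LinearMap.ker (αb b)))
    (k : ℕ) (v : Fin k → FP.V b0) (_ : LinearIndependent ℂ v)
    (_ : Submodule.span ℂ (Set.range v) = LinearMap.ker (αb b0)),
    ∃ (f : A) (V : Fin k → P), b0 f ≠ 0 ∧ (∀ i, α (V i) = 0) ∧ (∀ i, FP.pi b0 (V i) = v i) ∧
      ∀ b : A →ₐ[ℂ] ℂ, b f ≠ 0 → LinearIndependent ℂ (fun i => FP.pi b (V i)) ∧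
        Submodule.span ℂ (Set.range fun i => FP.pi b (V i)) = LinearMap.ker (αb b)

def ST_SEMI : Prop :=
  ∀ (A : Type) [CommRing A] [IsDomain A] [Algebra ℂ A] [Algebra.FiniteType ℂ A]
    (P Q : Type) [AddCommGroup P] [Module A P] [Module.Finite A P] [Module.Projective A P]
    [AddCommGroup Q] [Module A Q] [Module.Finite A Q] [Module.Projective A Q]
    (FP : FM A P) (FQ : FM A Q) (α : P →ₗ[A] Q) (αb : ∀ b, FP.V b →ₗ[ℂ] FQ.V b)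
    (_ : ∀ b p, αb b (FP.pi b p) = FQ.pi b (α p)) (b0 : A →ₐ[ℂ] ℂ),
    ∃ f : A, b0 f ≠ 0 ∧ ∀ b : A →ₐ[ℂ] ℂ, b f ≠ 0 → Module.Finite ℂ (FP.V b) ∧
      Module.finrank ℂ (LinearMap.ker (αb b)) ≤ Module.finrank ℂ (LinearMap.ker (αb b0))

/-! ### G2: sections near `b0` -/

def ST_SEC : Prop :=
  ∀ (g d : ℕ) (X : Pair g d) (E : Ex X.R X.gr) (A : Type) [CommRing A] [IsDomain A] [Algebra ℂ A]
    [Algebra.FiniteType ℂ A] (F : Family g d A) (b0 : A →ₐ[ℂ] ℂ) (S : At X F b0),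
    (∀ b, 12 ≤ (F.fib b).h0) → Nonempty (Sec E F b0 S)

def ST_REL : Prop :=
  ∀ (g d : ℕ) (X : Pair g d) (E : Ex X.R X.gr) (A : Type) [CommRing A] [IsDomain A] [Algebra ℂ A]
    [Algebra.FiniteType ℂ A] (F : Family g d A) (b0 : A →ₐ[ℂ] ℂ) (S : At X F b0),
    Nonempty (Sec E F b0 S) → Nonempty (Spr E F b0 S)

/-! ### G3: Krull -/

def ST_KRULL : Prop :=
  ∀ (g d : ℕ) (X : Pair g d) (E : Ex X.R X.gr) (A : Type) [CommRing A] [IsDomain A] [Algebra ℂ A]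
    [Algebra.FiniteType ℂ A] (F : Family g d A) (b0 : A →ₐ[ℂ] ℂ) (S : At X F b0),
    Nonempty (Spr E F b0 S) → (780 : ℕ∞) < (RingHom.ker b0).height → Nonempty (Loc E F b0 S)

/-! ### G4: lifting the roots over Artinian thickenings of `b0` -/

def ST_FLAT : Prop :=
  ∀ (g d : ℕ) (X : Pair g d) (A : Type) [CommRing A] [Algebra ℂ A]
    (F : Family g d A) (b0 : A →ₐ[ℂ] ℂ) (S : At X F b0) (n : ℕ) (_ : F.n0 ≤ n) (I : Ideal A) (ε : A)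
    (_ : ε ∉ I) (_ : ∀ a ∈ RingHom.ker b0, a * ε ∈ I) (z : F.R) (_ : z ∈ F.gr n),
    ε • z ∈ I • F.gr n → S.sp z = 0

def ST_REG : Prop :=
  ∀ (g d : ℕ) (X : Pair g d) (A : Type) [CommRing A] [IsDomain A] [Algebra ℂ A]
    [Algebra.FiniteType ℂ A] (F : Family g d A) (b0 : A →ₐ[ℂ] ℂ) (S : At X F b0)
    (n n1 : ℕ) (_ : F.n0 ≤ n) (I : Ideal A) (k : ℕ) (_ : RingHom.ker b0 ^ k ≤ I)
    (_ : I ≤ RingHom.ker b0) (c z : F.R) (_ : c ∈ F.gr n1) (_ : S.sp c ≠ 0) (_ : z ∈ F.gr n),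
    c * z ∈ I • F.gr (n1 + n) → z ∈ I • F.gr n

def ST_SAT : Prop :=
  ∀ (g d : ℕ) (X : Pair g d) (E : Ex X.R X.gr) (A : Type) [CommRing A] [IsDomain A] [Algebra ℂ A]
    [Algebra.FiniteType ℂ A] (F : Family g d A) (b0 : A →ₐ[ℂ] ℂ) (S : At X F b0)
    (L : Sec E F b0 S) (I : Ideal A) (k : ℕ) (_ : RingHom.ker b0 ^ k ≤ I) (_ : I ≤ RingHom.ker b0)
    (l : ℕ) (_ : F.n0 ≤ l) (P : MvPolynomial (Fin 12) ℂ) (_ : P.IsHomogeneous l),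
    ∃ U ∈ F.gr l, S.sp U = aeval E.x P ∧ L.u ^ l * U - ev F L.y P ∈ I • F.gr (l * (L.n + 1))

def ST_STEP : Prop :=
  ∀ (g d : ℕ) (X : Pair g d) (E : Ex X.R X.gr) (A : Type) [CommRing A] [IsDomain A] [Algebra ℂ A]
    [Algebra.FiniteType ℂ A] (F : Family g d A) (b0 : A →ₐ[ℂ] ℂ) (S : At X F b0)
    (L : Loc E F b0 S) (N : ℕ) (_ : F.n0 ≤ N) (D : RootData X.R X.gr E.x E.ν N)
    (I : Ideal A) (k : ℕ) (_ : RingHom.ker b0 ^ k ≤ I) (_ : I ≤ RingHom.ker b0) (_ : L.q ≤ I)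
    (ε : A) (_ : ε ∈ RingHom.ker b0) (_ : ε ∉ I) (_ : ∀ a ∈ RingHom.ker b0, a * ε ∈ I),
    (∃ W, RootsMod L D (I ⊔ Ideal.span {ε}) W) → ∃ W, RootsMod L D I W

def ST_LIFT : Prop :=
  ∀ (g d : ℕ) (X : Pair g d) (E : Ex X.R X.gr) (A : Type) [CommRing A] [IsDomain A] [Algebra ℂ A]
    [Algebra.FiniteType ℂ A] (F : Family g d A) (b0 : A →ₐ[ℂ] ℂ) (S : At X F b0)
    (L : Loc E F b0 S) (N : ℕ) (_ : F.n0 ≤ N) (D : RootData X.R X.gr E.x E.ν N) (k : ℕ),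
    ∃ W, RootsMod L D (L.q ⊔ RingHom.ker b0 ^ (k + 1)) W

/-! ### G5-G7: roots at infinitely many closed points -/

def ST_EXT : Prop :=
  ∀ (A : Type) [CommRing A] [IsDomain A] [Algebra ℂ A] [Algebra.FiniteType ℂ A]
    (O : Type) [CommRing O] [Algebra A O] [Algebra.FiniteType A O]
    (_ : Function.Injective (algebraMap A O)),
    ∃ h : A, h ≠ 0 ∧ ∀ b : A →ₐ[ℂ] ℂ, b h ≠ 0 →
      ∃ β : O →+* ℂ, ∀ a, β (algebraMap A O a) = b a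

def ST_INF : Prop :=
  ∀ (A : Type) [CommRing A] [IsDomain A] [Algebra ℂ A] [Algebra.FiniteType ℂ A]
    (_ : ¬ IsField A) (h : A) (_ : h ≠ 0), {b : A →ₐ[ℂ] ℂ | b h ≠ 0}.Infinite

def ST_PTS : Prop :=
  ∀ (g d : ℕ) (A : Type) [CommRing A] [IsDomain A] [Algebra ℂ A]
    [Algebra.FiniteType ℂ A] (F : Family g d A) (b0 : A →ₐ[ℂ] ℂ)
    (q : Ideal A) (_ : q.IsPrime) (_ : q < RingHom.ker b0) (f : A) (_ : b0 f ≠ 0)
    (m ν M : ℕ) (_ : F.n0 ≤ m) (V T : F.R) (t : ℕ) (_ : V ∈ F.gr t) (_ : m * ν + t = M)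
    (_ : T ∈ F.gr M)
    (_ : ∀ k : ℕ, ∃ W ∈ F.gr m, W ^ ν * V - T ∈ (q ⊔ RingHom.ker b0 ^ (k + 1)) • F.gr M)
    (_ : 1 ≤ ν),
    {b : A →ₐ[ℂ] ℂ | q ≤ RingHom.ker b ∧ b f ≠ 0 ∧
      ∃ W ∈ (F.fib b).gr m, W ^ ν * F.sp b V = F.sp b T}.Infinite

/-! ### G8: a pair with a root is isomorphic to `X` -/

def ST_INJ : Prop :=
  ∀ (g d : ℕ) (X : Pair g d) (E : Ex X.R X.gr) (Y : Pair g d)
    (ξ : Fin 12 → Y.R) (_ : ∀ i, ξ i ∈ Y.gr 1) (_ : LinearIndependent ℂ ξ)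
    (_ : ∀ (l : ℕ) (P : MvPolynomial (Fin 12) ℂ), P.IsHomogeneous l → aeval E.x P = 0 →
      aeval ξ P = 0),
    ∀ P : MvPolynomial (Fin 12) ℂ, aeval ξ P = 0 ↔ aeval E.x P = 0

def ST_EMB : Prop :=
  ∀ (g d : ℕ) (X : Pair g d) (E : Ex X.R X.gr) (N : ℕ) (D : RootData X.R X.gr E.x E.ν N)
    (Y : Pair g d) (ξ : Fin 12 → Y.R) (_ : ∀ i, ξ i ∈ Y.gr 1)
    (_ : ∀ P : MvPolynomial (Fin 12) ℂ, aeval ξ P = 0 ↔ aeval E.x P = 0)
    (W : Y.R) (_ : W ∈ Y.gr (D.m D.i0)) (_ : W ^ E.ν = aeval ξ (D.P D.i0)),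
    ∃ φ : X.R →ₐ[ℂ] Y.R, Function.Injective φ ∧ ∀ n, ∀ z ∈ X.gr n, φ z ∈ Y.gr n

def ST_SURJ : Prop :=
  ∀ (g d : ℕ) (_ : 1 ≤ d) (X : Pair g d) (_ : Ex X.R X.gr) (Y : Pair g d)
    (φ : X.R →ₐ[ℂ] Y.R) (_ : Function.Injective φ) (_ : ∀ n, ∀ z ∈ X.gr n, φ z ∈ Y.gr n), Y.Iso X

/-! ### The upper bound -/

/-- Theorem A: the local dimension of `𝒲^11_{d,g}` at a pair with the structure `Ex` is `≤ 780`. -/
def ST_THMA : Prop :=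
  ∀ (g d : ℕ) (_ : 1 ≤ d) (X : Pair g d) (_ : Ex X.R X.gr) (N : ℕ), DimGE 11 X N → N ≤ 780

end Pool.Agent.Helper67.RG
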