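import Pool.Agent.Helper67.RG.EStmts
import Pool.Agent.Helper67.RG.GStmts

/-!
# The main theorem from the module statements
-/

namespace Pool.Agent.Helper67.RG

theorem main_strong (hPELL : ST_PELL) (hPAIR : ST_PAIR) (hTHMA : ST_THMA) (c : ℝ) (hc : 0 < c) :
    ∃ (g d : ℕ) (X : Pair g d), 2 ≤ g ∧ 1 ≤ d ∧ d + 2 ≤ g + 11 ∧ 11 + 1 ≤ X.h0 ∧
      (780 : ℝ) < c * g ∧ ∀ N : ℕ, DimGE 11 X N → N ≤ 780 := by
  obtain ⟨k, hk⟩ := exists_nat_gt (780 / c)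
  let k' := k + 7
  have h2 : k' < 2 ^ k' := Nat.lt_two_pow_self
  have h100 : 100 ≤ 2 ^ k' := by
    calc 100 ≤ 2 ^ 7 := by norm_num
      _ ≤ 2 ^ k' := Nat.pow_le_pow_right (by norm_num) (by omega)
  obtain ⟨g, d, X, hd, hg, hX, ⟨E⟩⟩ := hPAIR (2 ^ k') h100 (hPELL k' (by omega))
  have hdk : k ≤ d := by omega
  refine ⟨g, d, X, by omega, by omega, by omega, hX, ?_, fun N hN => hTHMA g d (by omega) X E N hN⟩
  have hgk : k ≤ g := by omega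
  have : (780 : ℝ) / c < g := hk.trans_le (by exact_mod_cast hgk)
  rw [div_lt_iff₀ hc] at this
  linarith [mul_comm c (g : ℝ)]

theorem not_conjecture
    (h : ∀ c : ℝ, 0 < c → ∃ (g d : ℕ) (X : Pair g d), 2 ≤ g ∧ 1 ≤ d ∧ d + 2 ≤ g + 11 ∧
      11 + 1 ≤ X.h0 ∧ (780 : ℝ) < c * g ∧ ∀ N : ℕ, DimGE 11 X N → N ≤ 780) :
    ¬ RigidCurvesConjecture := by
  intro hQ
  obtain ⟨C, hC, hC'⟩ := hQ 11
  obtain ⟨g, d, X, h1, h2, h3, h4, h5, h6⟩ := h C hC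
  obtain ⟨N, hN, hN'⟩ := hC' g d h1 h2 h3 X h4
  have h7 : (N : ℝ) ≤ 780 := by exact_mod_cast h6 N hN'
  linarith

end Pool.Agent.Helper67.RG
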