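import Pool.Agent.Helper67.RG.GStmts

/-!
# Basic lemmas for the general part
-/

namespace Pool.Agent.Helper67.RG

open MvPolynomial

section

variable {g d : ℕ} {A : Type} [CommRing A] [Algebra ℂ A]

/-- The specialization maps of a family are given by `At`, up to an isomorphism. -/
theorem exists_at {X : Pair g d}
    (F : Family g d A) (b0 : A →ₐ[ℂ] ℂ) (h : (F.fib b0).Iso X) : Nonempty (At X F b0) := by
  obtain ⟨e, he⟩ := h
  refine ⟨{
    sp := (e : (F.fib b0).R →+* X.R).comp (F.sp b0)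
    alg := fun a => ?_
    gr := fun n x hx => ?_
    surj := fun n hn y hy => ?_
    ker := fun n hn x hx h => ?_ }⟩
  · simp [F.sp_alg]
  · exact (he n _).1 (F.sp_gr b0 n x hx)
  · obtain ⟨x, hx, hxy⟩ := F.sp_surj b0 n hn (e.symm y) ((he n _).2 (by simpa using hy))
    exact ⟨x, hx, by simp [hxy]⟩
  · refine F.sp_ker b0 n hn x hx ?_
    have : e (F.sp b0 x) = 0 := h
    simpa using this

theorem ev_add (F : Family g d A) (y : Fin 12 → F.R) (P Q : MvPolynomial (Fin 12) ℂ) :
    ev F y (P + Q) = ev F y P + ev F y Q := eval₂_add _ _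

theorem ev_sub (F : Family g d A) (y : Fin 12 → F.R) (P Q : MvPolynomial (Fin 12) ℂ) :
    ev F y (P - Q) = ev F y P - ev F y Q := by
  rw [ev, ev, ev, ← MvPolynomial.coe_eval₂Hom, map_sub]

theorem ev_mul (F : Family g d A) (y : Fin 12 → F.R) (P Q : MvPolynomial (Fin 12) ℂ) :
    ev F y (P * Q) = ev F y P * ev F y Q := eval₂_mul _ _

theorem ev_pow (F : Family g d A) (y : Fin 12 → F.R) (P : MvPolynomial (Fin 12) ℂ) (n : ℕ) :
    ev F y (P ^ n) = ev F y P ^ n := eval₂_pow _ _

theorem ev_X (F : Family g d A) (y : Fin 12 → F.R) (i : Fin 12) :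
    ev F y (X i) = y i := eval₂_X _ _ _

theorem ev_C (F : Family g d A) (y : Fin 12 → F.R) (c : ℂ) :
    ev F y (C c) = algebraMap A F.R (algebraMap ℂ A c) := eval₂_C _ _ _

/-- Specialization at `b` of the value of a polynomial. -/
theorem ev_sp (F : Family g d A)
    (b : A →ₐ[ℂ] ℂ) (y : Fin 12 → F.R) (P : MvPolynomial (Fin 12) ℂ) :
    F.sp b (ev F y P) = aeval (fun i => F.sp b (y i)) P := by
  rw [ev, aeval_def, ← MvPolynomial.coe_eval₂Hom, ← RingHom.comp_apply,
    ← MvPolynomial.coe_eval₂Hom]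
  congr 1
  refine MvPolynomial.ringHom_ext (fun c => ?_) (fun i => ?_)
  · simp [F.sp_alg]
  · simp

/-- Specialization at `b0` of the value of a polynomial. -/
theorem ev_at {X : Pair g d} {F : Family g d A} {b0 : A →ₐ[ℂ] ℂ} (S : At X F b0)
    (y : Fin 12 → F.R) (P : MvPolynomial (Fin 12) ℂ) :
    S.sp (ev F y P) = aeval (fun i => S.sp (y i)) P := by
  rw [ev, aeval_def, ← MvPolynomial.coe_eval₂Hom, ← RingHom.comp_apply,
    ← MvPolynomial.coe_eval₂Hom]
  congr 1
  refine MvPolynomial.ringHom_ext (fun c => ?_) (fun i => ?_)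
  · simp [S.alg]
  · simp

/-- Homogeneous polynomials scale. -/
theorem aeval_scale {R : Type} [CommRing R] [Algebra ℂ R] (ξ : Fin 12 → R) (u : R) (l : ℕ)
    (P : MvPolynomial (Fin 12) ℂ) (hP : P.IsHomogeneous l) :
    aeval (fun i => ξ i * u) P = aeval ξ P * u ^ l := by
  rw [aeval_def, aeval_def, eval₂_eq, eval₂_eq, Finset.sum_mul]
  refine Finset.sum_congr rfl fun m hm => ?_
  have hd : ∑ i ∈ m.support, m i = l := by
    have := hP (mem_support_iff.mp hm)
    rw [← this, Finsupp.weight_apply]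
    simp [Finsupp.sum]
  have : ∏ i ∈ m.support, (ξ i * u) ^ m i = (∏ i ∈ m.support, ξ i ^ m i) * u ^ l := by
    rw [← hd, ← Finset.prod_pow_eq_pow_sum, ← Finset.prod_mul_distrib]
    exact Finset.prod_congr rfl fun i _ => mul_pow _ _ _
  rw [this, mul_assoc]

/-- Values of homogeneous polynomials of degree `l` at elements of degree `k` have degree
`l * k`. -/
theorem ev_mem (F : Family g d A) {y : Fin 12 → F.R} {k : ℕ} (hy : ∀ i, y i ∈ F.gr k) {l : ℕ}
    {P : MvPolynomial (Fin 12) ℂ} (hP : P.IsHomogeneous l) : ev F y P ∈ F.gr (l * k) := by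
  rw [ev, eval₂_eq]
  refine Submodule.sum_mem _ fun m hm => ?_
  have hd : ∑ i ∈ m.support, m i = l := by
    have := hP (mem_support_iff.mp hm)
    rw [← this, Finsupp.weight_apply]
    simp [Finsupp.sum]
  rw [RingHom.comp_apply, ← Algebra.smul_def]
  refine Submodule.smul_mem _ _ ?_
  have h := SetLike.prod_mem_graded F.gr (fun i => m i * k) (fun i => y i ^ m i)
    (F := m.support) (fun i _ => by
      have := SetLike.pow_mem_graded (m i) (hy i)
      rwa [smul_eq_mul] at this)
  rwa [← Finset.sum_mul, hd] at h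

/-- The same for the values in a graded `ℂ`-algebra. -/
theorem aeval_mem {R : Type} [CommRing R] [Algebra ℂ R] (gr : ℕ → Submodule ℂ R)
    [SetLike.GradedMonoid gr] {y : Fin 12 → R} {k : ℕ} (hy : ∀ i, y i ∈ gr k) {l : ℕ}
    {P : MvPolynomial (Fin 12) ℂ} (hP : P.IsHomogeneous l) : aeval y P ∈ gr (l * k) := by
  rw [aeval_def, eval₂_eq]
  refine Submodule.sum_mem _ fun m hm => ?_
  have hd : ∑ i ∈ m.support, m i = l := by
    have := hP (mem_support_iff.mp hm)
    rw [← this, Finsupp.weight_apply]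
    simp [Finsupp.sum]
  rw [← Algebra.smul_def]
  refine Submodule.smul_mem _ _ ?_
  have h := SetLike.prod_mem_graded gr (fun i => m i * k) (fun i => y i ^ m i)
    (F := m.support) (fun i _ => by
      have := SetLike.pow_mem_graded (m i) (hy i)
      rwa [smul_eq_mul] at this)
  rwa [← Finset.sum_mul, hd] at h

/-- `I • gr n` times `gr m` lies in `I • gr (n + m)`. -/
theorem smul_mul_mem (F : Family g d A) {I : Ideal A} {n m : ℕ} {z c : F.R}
    (hz : z ∈ I • F.gr n) (hc : c ∈ F.gr m) : z * c ∈ I • F.gr (n + m) := by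
  refine Submodule.smul_induction_on hz (fun a ha z hz => ?_) (fun z z' h h' => ?_)
  · rw [smul_mul_assoc]
    exact Submodule.smul_mem_smul ha (SetLike.mul_mem_graded hz hc)
  · rw [add_mul]; exact Submodule.add_mem _ h h'

theorem mul_smul_mem (F : Family g d A) {I : Ideal A} {n m : ℕ} {z c : F.R}
    (hc : c ∈ F.gr m) (hz : z ∈ I • F.gr n) : c * z ∈ I • F.gr (m + n) := by
  rw [mul_comm, add_comm]; exact smul_mul_mem F hz hc

theorem sp_smul_zero (F : Family g d A) (b : A →ₐ[ℂ] ℂ) {I : Ideal A} (hI : I ≤ RingHom.ker b)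
    {n : ℕ} {z : F.R} (hz : z ∈ I • F.gr n) : F.sp b z = 0 := by
  refine Submodule.smul_induction_on hz (fun a ha z _ => ?_) (fun z z' h h' => ?_)
  · rw [Algebra.smul_def, map_mul, F.sp_alg, show b a = 0 from hI ha, map_zero, zero_mul]
  · rw [map_add, h, h', add_zero]

theorem at_smul_zero {X : Pair g d} {F : Family g d A} {b0 : A →ₐ[ℂ] ℂ} (S : At X F b0)
    {I : Ideal A} (hI : I ≤ RingHom.ker b0) {n : ℕ} {z : F.R} (hz : z ∈ I • F.gr n) :
    S.sp z = 0 := by
  refine Submodule.smul_induction_on hz (fun a ha z _ => ?_) (fun z z' h h' => ?_)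
  · rw [Algebra.smul_def, map_mul, S.alg, show b0 a = 0 from hI ha, map_zero, zero_mul]
  · rw [map_add, h, h', add_zero]

end

end Pool.Agent.Helper67.RG
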