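import Pool.Agent.Helper13.RG.Stmts

/-!
# Module GE1: classes of units at a geometric section
-/

set_option autoImplicit false

namespace Pool.Agent.Helper13.RG

open Pool.Agent.Helper14.BSC Pool.Agent.Helper13.ZL

theorem ge1_val {K : Type} [Field K] (O : ValuationSubring K) (x : K) :
    O.valuation x < 1 ↔ (x = 0 ∨ x⁻¹ ∉ O) := by
  by_cases hx : x = 0
  · simp [hx]
  · have h0 : O.valuation x ≠ 0 := (Valuation.ne_zero_iff _).2 hx
    rw [← O.valuation_le_one_iff x⁻¹, map_inv₀, not_le]
    constructor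
    · intro h
      right
      exact (one_lt_inv₀ (zero_lt_iff.2 h0)).2 h
    · rintro (h | h)
      · exact absurd h hx
      · exact (one_lt_inv₀ (zero_lt_iff.2 h0)).1 h

theorem st_GE1 (hHEN : ST_HEN) : ST_GE1 := by
  intro k K Ω _ _ _ _ _ _ _ _ _ D O hG f c hc hv x hx n hn
  obtain ⟨-, hPk, -, W, hW, hinv⟩ := hG
  have htower : ∀ t : k, algebraMap K Ω (algebraMap k K t) = algebraMap k Ω t := fun t =>
    (IsScalarTower.algebraMap_apply k K Ω t).symm
  have hPW : ∀ y : K, algebraMap K Ω y ∈ W ↔ y ∈ O := by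
    intro y
    rw [← hW]
    exact ValuationSubring.mem_comap.symm
  have hkW : ∀ t : k, algebraMap k Ω t ∈ W := by
    intro t
    rw [← htower, hPW]
    exact hPk t
  have hc' : algebraMap k Ω c ≠ 0 := fun h0 => hc ((map_eq_zero _).1 h0)
  have hcL : algebraMap k (LL D) c ≠ 0 := fun h0 => hc ((map_eq_zero _).1 h0)
  obtain ⟨y, hy⟩ := hHEN k Ω D W hkW hinv (x * (algebraMap k (LL D) c)⁻¹) (by
    have e3 : ((x * (algebraMap k (LL D) c)⁻¹ : LL D) : Ω) =
        algebraMap K Ω f * (algebraMap k Ω c)⁻¹ := by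
      rw [← hx]
      rfl
    have e1 : ((x * (algebraMap k (LL D) c)⁻¹ : LL D) : Ω) - 1 =
        algebraMap K Ω (f - algebraMap k K c) * algebraMap k Ω c⁻¹ := by
      rw [e3, map_sub, htower, map_inv₀]
      field_simp
    rw [e1, map_mul]
    have e4 : W.valuation (algebraMap K Ω (f - algebraMap k K c)) < 1 := by
      rw [ge1_val]
      rw [ge1_val] at hv
      rcases hv with hv | hv
      · left
        rw [hv, map_zero]
      · right
        rw [← map_inv₀, hPW]
        exact hv
    have e5 : W.valuation (algebraMap k Ω c⁻¹) ≤ 1 :=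
      (W.valuation_le_one_iff _).2 (hkW _)
    exact lt_of_le_of_lt (mul_le_of_le_one_right' e5) e4) n hn
  refine ⟨y, ?_⟩
  rw [← hy]
  field_simp

end Pool.Agent.Helper13.RG
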