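import Pool.Agent.Helper67.RG.Ex

/-!
# The special curves: Pell data, the tower of fields, the section ring
-/

namespace Pool.Agent.Helper67.RG

open Polynomial

/-- The algebraic closure `Ω` of `ℂ(τ)`. -/
abbrev Om : Type := AlgebraicClosure (RatFunc ℂ)

/-- The variable `τ` in `Ω`. -/
noncomputable def tau : Om := algebraMap (RatFunc ℂ) Om RatFunc.X

/-- The indices `0, …, 5`. -/
def I1 : Finset (Fin 12) := Finset.univ.filter fun i => (i : ℕ) < 6

/-- The indices `6, …, 11`. -/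
def I2 : Finset (Fin 12) := Finset.univ.filter fun i => 6 ≤ (i : ℕ)

/-- Pell data: `f = f1 f2` is a quartic, the roots of `f (t³)` are the twelve numbers `lam i`,
`f2 p² - f1 q² = 1`, and the Pell equation `a² - f b² = c ≠ 0` has no solution with `b ≠ 0` and
`deg a < 2 ν`. -/
structure Pell (ν : ℕ) where
  hν : 2 ≤ ν
  f1 : ℂ[X]
  f2 : ℂ[X]
  p : ℂ[X]
  q : ℂ[X]
  lam : Fin 12 → ℂ
  inj : Function.Injective lam
  m1 : f1.Monic
  m2 : f2.Monic
  d1 : f1.natDegree = 2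
  d2 : f2.natDegree = 2
  h1 : f1.comp (X ^ 3) = ∏ i ∈ I1, (X - C (lam i))
  h2 : f2.comp (X ^ 3) = ∏ i ∈ I2, (X - C (lam i))
  pq : f2 * p ^ 2 - f1 * q ^ 2 = 1
  dp : p.natDegree = ν - 1
  dq : q.natDegree = ν - 1
  min : ∀ (a b : ℂ[X]) (c : ℂ), c ≠ 0 → a ^ 2 - f1 * f2 * b ^ 2 = C c → b ≠ 0 →
    2 * ν ≤ a.natDegree

/-- The square roots `r i = √(τ - lam i)` and the `ν`-th root `w` of `G = p X₂ + q X₁`. -/
structure Tower {ν : ℕ} (D : Pell ν) where
  r : Fin 12 → Om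
  hr : ∀ i, r i ^ 2 = tau - algebraMap ℂ Om (D.lam i)
  w : Om
  hw : w ^ ν = aeval (tau ^ 3) D.p * ∏ i ∈ I2, r i + aeval (tau ^ 3) D.q * ∏ i ∈ I1, r i

namespace Tower

variable {ν : ℕ} {D : Pell ν} (T : Tower D)

/-- The product of the `r i`, `i ∈ s`. -/
noncomputable def rr (s : Finset (Fin 12)) : Om := ∏ i ∈ s, T.r i

/-- `y = ∏ r i`, so that `y² = f (τ³)`. -/
noncomputable def y : Om := T.rr Finset.univ

/-- The element `G = w ^ ν`. -/
noncomputable def G : Om := aeval (tau ^ 3) D.p * T.rr I2 + aeval (tau ^ 3) D.q * T.rr I1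

/-- The inverse of `G`. -/
noncomputable def G' : Om := aeval (tau ^ 3) D.p * T.rr I2 - aeval (tau ^ 3) D.q * T.rr I1

/-- The `ℂ(τ)`-span of the products `r_s w^i` with `|s| ≡ m` modulo `2`. -/
noncomputable def E (m : ℕ) : Submodule (RatFunc ℂ) Om :=
  Submodule.span (RatFunc ℂ) {z | ∃ (s : Finset (Fin 12)) (i : ℕ), i < ν ∧
    s.card % 2 = m % 2 ∧ z = T.rr s * T.w ^ i}

end Tower

/-- The polynomial ring `ℂ[s, t]`, `s = X²`, `t = τ X²`, inside `Ω[X]`. -/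
noncomputable def A0 : Subalgebra ℂ Om[X] := Algebra.adjoin ℂ {X ^ 2, C tau * X ^ 2}

/-- `z ∈ W m` iff `z X^m` is integral over `ℂ[s, t]`. -/
noncomputable def W (m : ℕ) : Set Om := {z | IsIntegral A0 (monomial m z)}

end Pool.Agent.Helper67.RG
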