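import Pool.Agent.Helper67.RG.Tower

/-!
# The section ring `B` of the special pair
-/

namespace Pool.Agent.Helper67.RG

open Polynomial

theorem tau_sub_mem (c : ℂ) :
    tau - algebraMap ℂ Om c = algebraMap (RatFunc ℂ) Om (RatFunc.X - RatFunc.C c) := by
  rw [map_sub, tau]
  congr 1

namespace Tower

variable {ν : ℕ} {D : Pell ν} (T : Tower D)

theorem prod_mem (s : Finset (Fin 12)) :
    ∃ c : RatFunc ℂ, ∏ i ∈ s, (tau - algebraMap ℂ Om (D.lam i)) = algebraMap (RatFunc ℂ) Om c := by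
  refine ⟨∏ i ∈ s, (RatFunc.X - RatFunc.C (D.lam i)), ?_⟩
  rw [map_prod]
  exact Finset.prod_congr rfl fun i _ => tau_sub_mem _

theorem rr_mul (s t : Finset (Fin 12)) :
    T.rr s * T.rr t = (∏ i ∈ s ∩ t, (tau - algebraMap ℂ Om (D.lam i))) * T.rr (symmDiff s t) := by
  classical
  have h1 : T.rr s = T.rr (s ∩ t) * T.rr (s \ t) := by
    rw [rr, rr, rr, ← Finset.prod_union]
    · congr 1
      ext i; simp only [Finset.mem_union, Finset.mem_inter, Finset.mem_sdiff]; tauto
    · rw [Finset.disjoint_left]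
      intro i; simp only [Finset.mem_inter, Finset.mem_sdiff]; tauto
  have h2 : T.rr t = T.rr (s ∩ t) * T.rr (t \ s) := by
    rw [rr, rr, rr, ← Finset.prod_union]
    · congr 1
      ext i; simp only [Finset.mem_union, Finset.mem_inter, Finset.mem_sdiff]; tauto
    · rw [Finset.disjoint_left]
      intro i; simp only [Finset.mem_inter, Finset.mem_sdiff]; tauto
  have h3 : T.rr (symmDiff s t) = T.rr (s \ t) * T.rr (t \ s) := by
    rw [rr, rr, rr, ← Finset.prod_union]
    · rfl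
    · rw [Finset.disjoint_left]
      intro i; simp only [Finset.mem_sdiff]; tauto
  have h4 : ∏ i ∈ s ∩ t, (tau - algebraMap ℂ Om (D.lam i)) = T.rr (s ∩ t) * T.rr (s ∩ t) := by
    rw [rr, ← Finset.prod_mul_distrib]
    exact Finset.prod_congr rfl fun i _ => by rw [← T.hr i, pow_two]
  rw [h4, h3, h1, h2]
  ring

theorem hw' : T.w ^ ν = T.G := T.hw

theorem aeval_tau_mem (P : ℂ[X]) :
    ∃ c : RatFunc ℂ, aeval (tau ^ 3) P = algebraMap (RatFunc ℂ) Om c := by
  refine ⟨aeval (RatFunc.X ^ 3) P, ?_⟩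
  rw [tau, ← map_pow]
  exact aeval_algebraMap_apply Om (RatFunc.X ^ 3 : RatFunc ℂ) P

theorem card_symmDiff (s t : Finset (Fin 12)) :
    (symmDiff s t).card % 2 = (s.card + t.card) % 2 := by
  classical
  have h1 : s.card = (s ∩ t).card + (s \ t).card := (Finset.card_inter_add_card_sdiff s t).symm
  have h2 : t.card = (t ∩ s).card + (t \ s).card := (Finset.card_inter_add_card_sdiff t s).symm
  have h3 : (symmDiff s t).card = (s \ t).card + (t \ s).card := by
    rw [← Finset.card_union_of_disjoint]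
    · rfl
    · rw [Finset.disjoint_left]
      intro i; simp only [Finset.mem_sdiff]; tauto
  rw [Finset.inter_comm] at h2
  omega

theorem mem_E {s : Finset (Fin 12)} {i m : ℕ} (hi : i < ν) (hs : s.card % 2 = m % 2) :
    T.rr s * T.w ^ i ∈ T.E m := Submodule.subset_span ⟨s, i, hi, hs, rfl⟩

theorem smul_mem_E {m : ℕ} {z c : Om} (hz : z ∈ T.E m)
    (hc : ∃ k : RatFunc ℂ, c = algebraMap (RatFunc ℂ) Om k) : c * z ∈ T.E m := by
  obtain ⟨k, rfl⟩ := hc
  rw [← Algebra.smul_def]
  exact Submodule.smul_mem _ _ hz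

theorem mem_E' {s : Finset (Fin 12)} (m : ℕ) (hs : s.card % 2 = m % 2) (i : ℕ) (hi : i < 2 * ν) :
    T.rr s * T.w ^ i ∈ T.E m := by
  have hν := D.hν
  by_cases h : i < ν
  · exact T.mem_E h hs
  · have h0 : T.w ^ i = T.G * T.w ^ (i - ν) := by
      rw [← T.hw', ← pow_add]; congr 1; omega
    have hi' : i - ν < ν := by omega
    have e : T.rr s * T.w ^ i = aeval (tau ^ 3) D.p * (T.rr s * T.rr I2 * T.w ^ (i - ν)) +
        aeval (tau ^ 3) D.q * (T.rr s * T.rr I1 * T.w ^ (i - ν)) := by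
      rw [h0, G]; ring
    rw [e]
    refine Submodule.add_mem _ (T.smul_mem_E ?_ (aeval_tau_mem _))
      (T.smul_mem_E ?_ (aeval_tau_mem _))
    · rw [rr_mul, mul_assoc]
      refine T.smul_mem_E (T.mem_E hi' ?_) (prod_mem _)
      rw [card_symmDiff, ← hs]
      have : I2.card = 6 := by decide
      omega
    · rw [rr_mul, mul_assoc]
      refine T.smul_mem_E (T.mem_E hi' ?_) (prod_mem _)
      rw [card_symmDiff, ← hs]
      have : I1.card = 6 := by decide
      omega

theorem E_mul {m n : ℕ} {a b : Om} (ha : a ∈ T.E m) (hb : b ∈ T.E n) : a * b ∈ T.E (m + n) := by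
  have h : T.E m * T.E n ≤ T.E (m + n) := by
    rw [E, E, Submodule.span_mul_span, Submodule.span_le]
    rintro _ ⟨_, ⟨s, i, hi, hs, rfl⟩, _, ⟨t, j, hj, ht, rfl⟩, rfl⟩
    have e : T.rr s * T.w ^ i * (T.rr t * T.w ^ j) = T.rr s * T.rr t * T.w ^ (i + j) := by ring
    show T.rr s * T.w ^ i * (T.rr t * T.w ^ j) ∈ T.E (m + n)
    rw [e, rr_mul, mul_assoc]
    refine T.smul_mem_E (T.mem_E' _ ?_ _ (by omega)) (prod_mem _)
    rw [card_symmDiff]; omega
  exact h (Submodule.mul_mem_mul ha hb)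

theorem one_mem_E : (1 : Om) ∈ T.E 0 := by
  have h := T.mem_E (s := ∅) (i := 0) (m := 0) (by have := D.hν; omega) (by simp)
  simpa [rr] using h

theorem alg_mem_E (c : RatFunc ℂ) : algebraMap (RatFunc ℂ) Om c ∈ T.E 0 := by
  have h := T.smul_mem_E T.one_mem_E ⟨c, rfl⟩
  rwa [mul_one] at h

theorem E_congr {m n : ℕ} (h : m % 2 = n % 2) : T.E m = T.E n := by
  simp only [E, h]

/-- The section ring of the special pair. -/
noncomputable def B : Subalgebra ℂ Om[X] where
  carrier := {P | IsIntegral A0 P ∧ ∀ m, P.coeff m ∈ T.E m}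
  mul_mem' := by
    rintro a b ⟨ha, ha'⟩ ⟨hb, hb'⟩
    refine ⟨ha.mul hb, fun m => ?_⟩
    rw [coeff_mul]
    refine Submodule.sum_mem _ fun p hp => ?_
    rw [← Finset.HasAntidiagonal.mem_antidiagonal.mp hp]
    exact T.E_mul (ha' _) (hb' _)
  add_mem' := by
    rintro a b ⟨ha, ha'⟩ ⟨hb, hb'⟩
    refine ⟨ha.add hb, fun m => ?_⟩
    rw [coeff_add]
    exact Submodule.add_mem _ (ha' _) (hb' _)
  algebraMap_mem' := by
    intro c
    refine ⟨?_, fun m => ?_⟩
    · have : algebraMap ℂ Om[X] c = algebraMap A0 Om[X] (algebraMap ℂ A0 c) := rfl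
      rw [this]
      exact isIntegral_algebraMap
    · have : algebraMap ℂ Om[X] c = C (algebraMap ℂ Om c) := rfl
      rw [this, coeff_C]
      split_ifs with h
      · subst h
        rw [IsScalarTower.algebraMap_apply ℂ (RatFunc ℂ) Om]
        exact T.alg_mem_E _
      · exact Submodule.zero_mem _

theorem mem_B {P : Om[X]} : P ∈ T.B ↔ IsIntegral A0 P ∧ ∀ m, P.coeff m ∈ T.E m := Iff.rfl

/-- The grading of `B` by the degree in `X`. -/
noncomputable def grB (n : ℕ) : Submodule ℂ T.B where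
  carrier := {P | ∃ z : Om, (P : Om[X]) = monomial n z}
  add_mem' := by
    rintro a b ⟨z, hz⟩ ⟨z', hz'⟩
    exact ⟨z + z', by rw [Subalgebra.coe_add, hz, hz', map_add]⟩
  zero_mem' := ⟨0, by simp⟩
  smul_mem' := by
    rintro c a ⟨z, hz⟩
    exact ⟨c • z, by rw [Subalgebra.coe_smul, hz, smul_monomial]⟩

/-- The sections `x i = r i X`. -/
noncomputable def xx (i : Fin 12) : Om[X] := monomial 1 (T.r i)

theorem s_mem : (X ^ 2 : Om[X]) ∈ A0 := Algebra.subset_adjoin (by simp)

theorem t_mem : (C tau * X ^ 2 : Om[X]) ∈ A0 := Algebra.subset_adjoin (by simp)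

theorem xx_mem (i : Fin 12) : T.xx i ∈ T.B := by
  refine ⟨?_, fun m => ?_⟩
  · refine IsIntegral.of_pow (n := 2) (by norm_num) ?_
    have e : T.xx i ^ 2 = C tau * X ^ 2 - (D.lam i) • (X ^ 2 : Om[X]) := by
      rw [xx, ← C_mul_X_pow_eq_monomial, pow_one, mul_pow, ← C_pow, T.hr i, Algebra.smul_def]
      have : algebraMap ℂ Om[X] (D.lam i) = C (algebraMap ℂ Om (D.lam i)) := rfl
      rw [this, C_sub]
      ring
    rw [e]
    have hm : C tau * X ^ 2 - (D.lam i) • (X ^ 2 : Om[X]) ∈ A0 :=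
      A0.sub_mem t_mem (A0.smul_mem s_mem _)
    exact isIntegral_algebraMap (R := A0) (x := ⟨_, hm⟩)
  · rw [xx, coeff_monomial]
    split_ifs with h
    · subst h
      have h := T.mem_E (s := {i}) (i := 0) (m := 1) (by have := D.hν; omega) (by simp)
      simpa [rr] using h
    · exact Submodule.zero_mem _

/-- The sections `x i` as elements of `B`. -/
noncomputable def x (i : Fin 12) : T.B := ⟨T.xx i, T.xx_mem i⟩

end Tower

end Pool.Agent.Helper67.RG
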